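import Pool.Agent.Lib.MP_3930bf_lc.Kneser

/-! A pattern of zeros and ones built from equations `a / b + c / d = ε`, and its rank. -/

namespace Pool.Agent.Lib.MP_3930bf_lc

namespace C91

open K91 Module Submodule

/-- `(ε, a, b, c, d)` stands for the equation `a / b + c / d = ε`. -/
abbrev RC := Bool × ℕ × ℕ × ℕ × ℕ
abbrev Ix := ℕ × ℕ × RC

def bv (b : Bool) : ℝ := bif b then 1 else 0

def names (L : List RC) : List ℕ := L.flatMap fun j => [j.2.1, j.2.2.1, j.2.2.2.1, j.2.2.2.2]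

def ax (k x : ℕ) : Ix := (k, k, false, x, x, x, x)

def rows (r : ℕ) (L : List RC) : List Ix :=
  ((List.range r).product (List.range r)).flatMap fun kl =>
    if kl.1 = kl.2 then (names L).map (ax kl.1) else L.map fun j => (kl.1, kl.2, j)

def eqb (m n : ℕ) : Bool := decide (m = n)

def meet (P Q : Ix) : Bool :=
  eqb P.1 Q.1 || eqb P.1 Q.2.1 || eqb P.2.1 Q.1 || eqb P.2.1 Q.2.1

def hit (P Q : Ix) : Bool :=
  (eqb Q.1 Q.2.1 && (eqb P.1 Q.1 && eqb P.2.2.2.1 Q.2.2.2.2.1 ||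
    eqb P.2.1 Q.1 && eqb P.2.2.2.2.2.1 Q.2.2.2.2.1)) ||
  (eqb P.1 P.2.1 && (eqb Q.1 P.1 && eqb Q.2.2.2.2.1 P.2.2.2.1 ||
    eqb Q.2.1 P.1 && eqb Q.2.2.2.2.2.2 P.2.2.2.1))

theorem ax_mem {r k x : ℕ} {L : List RC} (hk : k < r) (hx : x ∈ names L) : ax k x ∈ rows r L :=
  List.mem_flatMap.2 ⟨(k, k), by simp [hk], by simpa using ⟨x, hx, rfl⟩⟩

theorem mix_mem {r k l : ℕ} {L : List RC} {j : RC} (hk : k < r) (hl : l < r) (h : k ≠ l)
    (hj : j ∈ L) : (k, l, j) ∈ rows r L :=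
  List.mem_flatMap.2 ⟨(k, l), by simp [hk, hl], by simpa [h] using hj⟩

theorem mem_rows {r : ℕ} {L : List RC} {P : Ix} (h : P ∈ rows r L) :
    (∃ k < r, ∃ x, P = ax k x) ∨ (P.1 < r ∧ P.2.1 < r ∧ P.1 ≠ P.2.1 ∧ P.2.2 ∈ L) := by
  obtain ⟨⟨k, l⟩, h1, h2⟩ := List.mem_flatMap.1 h
  have h3 : k < r ∧ l < r := by simpa using h1
  by_cases e : k = l
  · rw [if_pos e] at h2
    obtain ⟨x, -, rfl⟩ := List.mem_map.1 h2
    exact Or.inl ⟨k, h3.1, x, rfl⟩
  · rw [if_neg e] at h2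
    obtain ⟨j, hj, rfl⟩ := List.mem_map.1 h2
    exact Or.inr ⟨h3.1, h3.2, e, hj⟩

theorem names_mem {L : List RC} {j : RC} (hj : j ∈ L) :
    j.2.1 ∈ names L ∧ j.2.2.1 ∈ names L ∧ j.2.2.2.1 ∈ names L ∧ j.2.2.2.2 ∈ names L :=
  ⟨List.mem_flatMap.2 ⟨j, hj, by simp⟩, List.mem_flatMap.2 ⟨j, hj, by simp⟩,
    List.mem_flatMap.2 ⟨j, hj, by simp⟩, List.mem_flatMap.2 ⟨j, hj, by simp⟩⟩

/-- `Y` has the prescribed entries. -/
structure Pat (r : ℕ) (L : List RC) (Y : Ix → Ix → ℝ) : Prop where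
  zero : ∀ P ∈ rows r L, ∀ Q ∈ rows r L, meet P Q = false → Y P Q = 0
  one : ∀ P ∈ rows r L, ∀ Q ∈ rows r L, meet P Q = true → hit P Q = true → Y P Q = 1
  dia : ∀ P ∈ rows r L, hit P P = false → Y P P = bv P.2.2.1

/-- `P` is an index supported in `{k, l}`. -/
def Sup (r : ℕ) (L : List RC) (k l : ℕ) (P : Ix) : Prop :=
  P ∈ rows r L ∧ (P.1 = k ∨ P.1 = l) ∧ (P.2.1 = k ∨ P.2.1 = l)

/-- The block of `{k, l}` factors through the two axes at `o`. -/
def Flat (r : ℕ) (L : List RC) (Y : Ix → Ix → ℝ) (o k l : ℕ) : Prop :=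
  ∀ P Q, Sup r L k l P → Sup r L k l Q →
    Y P Q = Y (ax k o) Q * Y P (ax k o) + Y (ax l o) Q * Y P (ax l o)

variable {r o k l : ℕ} {L : List RC} {Y : Ix → Ix → ℝ}

theorem Flat.symm (h : Flat r L Y o k l) : Flat r L Y o l k := fun P Q hP hQ => by
  rw [h P Q ⟨hP.1, hP.2.1.symm, hP.2.2.symm⟩ ⟨hQ.1, hQ.2.1.symm, hQ.2.2.symm⟩, add_comm]

theorem Pat.axne (h : Pat r L Y) (hk : k < r) (hl : l < r) (e : k ≠ l) {x x' : ℕ}
    (hx : x ∈ names L) (hx' : x' ∈ names L) : Y (ax k x) (ax l x') = 0 :=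
  h.zero _ (ax_mem hk hx) _ (ax_mem hl hx') (by simp [meet, eqb, ax, e])

theorem Pat.axeq (h : Pat r L Y) (hk : k < r) {x : ℕ} (hx : x ∈ names L) :
    Y (ax k x) (ax k x) = 1 :=
  h.one _ (ax_mem hk hx) _ (ax_mem hk hx) (by simp [meet, eqb]) (by simp [hit, eqb, ax])

theorem flat_nz (h : Pat r L Y) (hk : k < r) (hl : l < r) (e : k ≠ l) (ho : o ∈ names L)
    (hf : Flat r L Y o k l) {x : ℕ} (hx : x ∈ names L) :
    Y (ax k x) (ax k o) * Y (ax k o) (ax k x) = 1 := by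
  have s : Sup r L k l (ax k x) := ⟨ax_mem hk hx, Or.inl rfl, Or.inl rfl⟩
  have h1 := hf _ _ s s
  rw [h.axeq hk hx, h.axne hk hl e hx ho, mul_zero, add_zero, mul_comm] at h1
  exact h1.symm

theorem flat_eq (h : Pat r L Y) (hk : k < r) (hl : l < r) (e : k ≠ l) (ho : o ∈ names L)
    (hf : Flat r L Y o k l) {j : RC} (hj : j ∈ L) :
    Y (ax k j.2.1) (ax k o) * Y (ax k o) (ax k j.2.2.1) +
      Y (ax l j.2.2.2.1) (ax l o) * Y (ax l o) (ax l j.2.2.2.2) = bv j.1 := by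
  obtain ⟨ha, hb, hc, hd⟩ := names_mem hj
  have m := mix_mem hk hl e hj
  have s : Sup r L k l (k, l, j) := ⟨m, Or.inl rfl, Or.inr rfl⟩
  have sk : ∀ x ∈ names L, Sup r L k l (ax k x) := fun x hx =>
    ⟨ax_mem hk hx, Or.inl rfl, Or.inl rfl⟩
  have sl : ∀ x ∈ names L, Sup r L k l (ax l x) := fun x hx =>
    ⟨ax_mem hl hx, Or.inr rfl, Or.inr rfl⟩
  have e1 := hf _ _ s (sk _ ha)
  have e2 := hf _ _ s (sl _ hc)
  have e3 := hf _ _ (sk _ hb) s
  have e4 := hf _ _ (sl _ hd) s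
  have e5 := hf _ _ s s
  rw [h.one _ m _ (ax_mem hk ha) (by simp [meet, eqb, ax]) (by simp [hit, eqb, ax]),
    h.axne hl hk e.symm ho ha] at e1
  rw [h.one _ m _ (ax_mem hl hc) (by simp [meet, eqb, ax]) (by simp [hit, eqb, ax]),
    h.axne hk hl e ho hc] at e2
  rw [h.one _ (ax_mem hk hb) _ m (by simp [meet, eqb, ax]) (by simp [hit, eqb, ax]),
    h.axne hk hl e hb ho] at e3
  rw [h.one _ (ax_mem hl hd) _ m (by simp [meet, eqb, ax]) (by simp [hit, eqb, ax]),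
    h.axne hl hk e.symm hd ho] at e4
  rw [h.dia _ m (by simp [hit, eqb, e])] at e5
  have n1 := flat_nz h hk hl e ho hf ha
  have n2 := flat_nz h hl hk e.symm ho hf.symm hc
  have n3 := flat_nz h hk hl e ho hf hb
  have n4 := flat_nz h hl hk e.symm ho hf.symm hd
  have f1 : Y (k, l, j) (ax k o) = Y (ax k j.2.1) (ax k o) := by
    linear_combination (-Y (ax k j.2.1) (ax k o)) * e1 - Y (k, l, j) (ax k o) * n1
  have f2 : Y (k, l, j) (ax l o) = Y (ax l j.2.2.2.1) (ax l o) := by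
    linear_combination (-Y (ax l j.2.2.2.1) (ax l o)) * e2 - Y (k, l, j) (ax l o) * n2
  have f3 : Y (ax k o) (k, l, j) = Y (ax k o) (ax k j.2.2.1) := by
    linear_combination (-Y (ax k o) (ax k j.2.2.1)) * e3 - Y (ax k o) (k, l, j) * n3
  have f4 : Y (ax l o) (k, l, j) = Y (ax l o) (ax l j.2.2.2.2) := by
    linear_combination (-Y (ax l o) (ax l j.2.2.2.2)) * e4 - Y (ax l o) (k, l, j) * n4
  rw [f1, f2, f3, f4] at e5
  linear_combination -e5

/-- The equations have a solution, with `z` the reciprocal of `y`. -/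
def Sol (L : List RC) : Prop :=
  ∃ y z : ℕ → ℝ, (∀ x ∈ names L, y x * z x = 1) ∧
    ∀ j ∈ L, y j.2.1 * z j.2.2.1 + y j.2.2.2.1 * z j.2.2.2.2 = bv j.1

theorem colour (h : Pat r L Y) (ho : o ∈ names L) (hno : ¬ Sol L) :
    ∃ col : ℕ → Prop, ∀ k < r, ∀ l < r, k ≠ l → (col k ↔ col l) → ¬ Flat r L Y o k l := by
  let D : ℕ → {j // j ∈ L} → ℝ := fun k j =>
    Y (ax k j.1.2.1) (ax k o) * Y (ax k o) (ax k j.1.2.2.1) +
      Y (ax k j.1.2.2.2.1) (ax k o) * Y (ax k o) (ax k j.1.2.2.2.2) - bv j.1.1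
  refine ⟨fun k => WellOrderingRel (D k) (-D k), fun k hk l hl e hc hf => ?_⟩
  have h1 : D l = -D k := funext fun j => by
    have a1 := flat_eq h hk hl e ho hf j.2
    have a2 := flat_eq h hl hk e.symm ho hf.symm j.2
    simp only [D, Pi.neg_apply]
    linear_combination a1 + a2
  simp only [h1, neg_neg] at hc
  rcases trichotomous_of WellOrderingRel (D k) (-D k) with h2 | h2 | h2
  · exact asymm_of WellOrderingRel h2 (hc.1 h2)
  · refine hno ⟨fun x => Y (ax k x) (ax k o), fun x => Y (ax k o) (ax k x),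
      fun x hx => flat_nz h hk hl e ho hf hx, fun j hj => ?_⟩
    have a1 := congrFun h2 ⟨j, hj⟩
    simp only [D, Pi.neg_apply] at a1
    linear_combination a1 / 2
  · exact asymm_of WellOrderingRel h2 (hc.2 h2)

variable {V : Type} [AddCommGroup V] [Module ℝ V] [FiniteDimensional ℝ V]

theorem core (t : ℕ) (ht : r ≤ 2 ^ t) (W : Submodule ℝ V) (R : Ix → V) (C : Ix → V →ₗ[ℝ] ℝ)
    (hR : ∀ P ∈ rows r L, R P ∈ W) (h : Pat r L fun P Q => C Q (R P)) (ho : o ∈ names L)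
    (hno : ¬ Sol L) : 2 * r ≤ finrank ℝ W + 2 * t + 2 := by
  classical
  obtain ⟨col, hcol⟩ := colour h ho hno
  let bf : ℕ → ℕ → Ix → V →ₗ[ℝ] ℝ := fun k l Q =>
    C Q - C Q (R (ax k o)) • C (ax k o) - C Q (R (ax l o)) • C (ax l o)
  have hbf : ∀ k l Q x, bf k l Q x =
      C Q x - C Q (R (ax k o)) * C (ax k o) x - C Q (R (ax l o)) * C (ax l o) x :=
    fun _ _ _ _ => rfl
  have h1 : ∀ k l, ∃ P Q, k < r → l < r → k ≠ l → (col k ↔ col l) →
      Sup r L k l P ∧ Sup r L k l Q ∧ bf k l Q (R P) ≠ 0 := by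
    intro k l
    by_contra hn
    push Not at hn
    obtain ⟨hk, hl, e, hc, -⟩ := hn (ax 0 0) (ax 0 0)
    refine hcol k hk l hl e hc fun P Q hP hQ => ?_
    have := (hn P Q).2.2.2.2 hP hQ
    rw [hbf] at this
    linear_combination this
  choose P Q hPQ using h1
  have off : ∀ k l k' l' P Q, k' < r → l' < r → Sup r L k l P → Sup r L k' l' Q → k ≠ k' →
      k ≠ l' → l ≠ k' → l ≠ l' → bf k' l' Q (R P) = 0 := by
    intro k l k' l' P Q hk hl hP hQ _ _ _ _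
    obtain ⟨p0, p1, p2⟩ := hP
    obtain ⟨q0, q1, q2⟩ := hQ
    have mz : ∀ P Q : Ix, P.1 ≠ Q.1 → P.1 ≠ Q.2.1 → P.2.1 ≠ Q.1 → P.2.1 ≠ Q.2.1 →
        meet P Q = false := fun P Q b1 b2 b3 b4 => by simp [meet, eqb, b1, b2, b3, b4]
    have x1 : ∀ m, (ax m o).1 = m := fun _ => rfl
    have x2 : ∀ m, (ax m o).2.1 = m := fun _ => rfl
    have a1 := h.zero P p0 Q q0 (mz _ _ (by omega) (by omega) (by omega) (by omega))
    have a2 := h.zero P p0 _ (ax_mem hk ho) (mz _ _ (by rw [x1]; omega) (by rw [x2]; omega)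
      (by rw [x1]; omega) (by rw [x2]; omega))
    have a3 := h.zero P p0 _ (ax_mem hl ho) (mz _ _ (by rw [x1]; omega) (by rw [x2]; omega)
      (by rw [x1]; omega) (by rw [x2]; omega))
    rw [hbf, a1, a2, a3]
    ring
  let U : Submodule ℝ V := span ℝ ((fun m => R (ax m o)) '' {m | m < r})
  have hU : r ≤ finrank ℝ U := by
    have := biorth (fun m => R (ax m o)) (fun m => C (ax m o)) U (Finset.range r) ⊥ bot_le
      (fun m hm => subset_span ⟨m, Finset.mem_range.1 hm, rfl⟩)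
      (fun m _ x hx => by rw [(mem_bot ℝ).1 hx, map_zero])
      (fun m hm => by simp [h.axeq (Finset.mem_range.1 hm) ho])
      (fun m hm m' hm' e =>
        h.axne (Finset.mem_range.1 hm') (Finset.mem_range.1 hm) e.symm ho ho)
    simpa using this
  have base : ∀ k l Q, k < r → l < r → k ≠ l → Sup r L k l Q → U ≤ LinearMap.ker (bf k l Q) := by
    intro k l Q hk hl e hQ
    refine span_le.2 ?_
    rintro _ ⟨m, hm, rfl⟩
    change bf k l Q (R (ax m o)) = 0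
    by_cases e1 : m = k
    · rw [e1, hbf, h.axeq hk ho, h.axne hk hl e ho ho]
      ring
    by_cases e2 : m = l
    · rw [e2, hbf, h.axeq hl ho, h.axne hl hk e.symm ho ho]
      ring
    exact off m m k l _ _ hk hl ⟨ax_mem hm ho, Or.inl rfl, Or.inl rfl⟩ hQ e1 e2 e1 e2
  have rep : ∀ (G : Finset ℕ) (U' : Submodule ℝ V), (∀ k ∈ G, k < r) →
      (∀ k ∈ G, ∀ l ∈ G, (col k ↔ col l)) →
      (∀ k ∈ G, ∀ l ∈ G, k ≠ l → U' ≤ LinearMap.ker (bf k l (Q k l))) →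
      finrank ℝ U' + G.card ≤ finrank ℝ ↥(U' ⊔ sp (fun k l => R (P k l)) G) + t + 1 := by
    intro G U' hG hc hU'
    refine kneser (b := fun k l => bf k l (Q k l)) t G U' ?_
      ⟨fun k hk l hl e => (hPQ k l (hG k hk) (hG l hl) e (hc k hk l hl)).2.2,
        fun k hk l hl k' hk' l' hl' e e' => off k l k' l' _ _ (hG k' hk') (hG l' hl')
          (hPQ k l (hG k hk) (hG l hl) e (hc k hk l hl)).1
          (hPQ k' l' (hG k' hk') (hG l' hl') e' (hc k' hk' l' hl')).2.1,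
        fun k hk l hl e x hx => hU' k hk l hl e hx⟩
    have := Finset.card_le_card (show G ⊆ Finset.range r from
      fun k hk => Finset.mem_range.2 (hG k hk))
    rw [Finset.card_range] at this
    omega
  let G1 := (Finset.range r).filter col
  let G2 := (Finset.range r).filter fun k => ¬ col k
  have g1 : ∀ k ∈ G1, k < r ∧ col k := fun k hk => by simpa [G1] using hk
  have g2 : ∀ k ∈ G2, k < r ∧ ¬ col k := fun k hk => by simpa [G2] using hk
  have c1 : ∀ k ∈ G1, ∀ l ∈ G1, (col k ↔ col l) := fun k hk l hl =>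
    iff_of_true (g1 k hk).2 (g1 l hl).2
  have c2 : ∀ k ∈ G2, ∀ l ∈ G2, (col k ↔ col l) := fun k hk l hl =>
    iff_of_false (g2 k hk).2 (g2 l hl).2
  have d : ∀ k ∈ G1, ∀ l ∈ G2, k ≠ l := fun k hk l hl e => (g2 l hl).2 (e ▸ (g1 k hk).2)
  have r1 := rep G1 U (fun k hk => (g1 k hk).1) c1 fun k hk l hl e =>
    base k l _ (g1 k hk).1 (g1 l hl).1 e (hPQ k l (g1 k hk).1 (g1 l hl).1 e (c1 k hk l hl)).2.1
  have r2 := rep G2 (U ⊔ sp (fun k l => R (P k l)) G1) (fun k hk => (g2 k hk).1) c2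
    fun k hk l hl e => by
      have s := (hPQ k l (g2 k hk).1 (g2 l hl).1 e (c2 k hk l hl)).2.1
      exact sup_le (base k l _ (g2 k hk).1 (g2 l hl).1 e s) (sp_le _ fun u hu v hv e' =>
        off u v k l _ _ (g2 k hk).1 (g2 l hl).1
          (hPQ u v (g1 u hu).1 (g1 v hv).1 e' (c1 u hu v hv)).1 s
          (d u hu k hk) (d u hu l hl) (d v hv k hk) (d v hv l hl))
  have r3 : U ⊔ sp (fun k l => R (P k l)) G1 ⊔ sp (fun k l => R (P k l)) G2 ≤ W :=
    sup_le (sup_le (span_le.2 (by rintro _ ⟨m, hm, rfl⟩; exact hR _ (ax_mem hm ho)))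
      (sp_le _ fun k hk l hl e => hR _ (hPQ k l (g1 k hk).1 (g1 l hl).1 e (c1 k hk l hl)).1.1))
      (sp_le _ fun k hk l hl e => hR _ (hPQ k l (g2 k hk).1 (g2 l hl).1 e (c2 k hk l hl)).1.1)
  have r4 := Submodule.finrank_mono r3
  have r5 : G1.card + G2.card = r := by
    rw [Finset.card_filter_add_card_filter_not, Finset.card_range]
  omega

/-! ### A solution gives a completion of rank at most `r` -/

noncomputable def uV (y : ℕ → ℝ) (P : Ix) (m : ℕ) : ℝ :=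
  if m = P.1 then y P.2.2.2.1 else if m = P.2.1 then y P.2.2.2.2.2.1 else 0

noncomputable def vV (z : ℕ → ℝ) (P : Ix) (m : ℕ) : ℝ :=
  if m = P.1 then z P.2.2.2.2.1 else if m = P.2.1 then z P.2.2.2.2.2.2 else 0

theorem pat_yes (y z : ℕ → ℝ) (hyz : ∀ x, y x * z x = 1)
    (hL : ∀ j ∈ L, y j.2.1 * z j.2.2.1 + y j.2.2.2.1 * z j.2.2.2.2 = bv j.1) :
    Pat r L fun P Q => ∑ m ∈ Finset.range r, uV y P m * vV z Q m := by
  have lt : ∀ P ∈ rows r L, P.1 < r ∧ P.2.1 < r := fun P hP => by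
    rcases mem_rows hP with ⟨k, hk, x, rfl⟩ | h
    · exact ⟨hk, hk⟩
    · exact ⟨h.1, h.2.1⟩
  refine ⟨fun P _ Q _ hm => ?_, fun P hP Q hQ _ hh => ?_, fun P hP hh => ?_⟩
  · simp only [meet, eqb, Bool.or_eq_false_iff, decide_eq_false_iff_not] at hm
    refine Finset.sum_eq_zero fun m _ => ?_
    unfold uV vV
    split_ifs <;> first | omega | simp
  · simp only [hit, eqb, Bool.or_eq_true, Bool.and_eq_true, decide_eq_true_eq] at hh
    rcases hh with ⟨e, hh⟩ | ⟨e, hh⟩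
    · rw [Finset.sum_eq_single Q.1 (fun m _ hm => by simp [vV, hm, ← e])
        fun hn => absurd (Finset.mem_range.2 (lt Q hQ).1) hn]
      rw [vV, if_pos rfl, ← hyz Q.2.2.2.2.1]
      congr 1
      rcases hh with ⟨e1, e2⟩ | ⟨e1, e2⟩
      · rw [uV, if_pos e1.symm, e2]
      · rcases mem_rows hP with ⟨k, _, x, rfl⟩ | h
        · simp only [ax] at e1 e2
          simp [uV, ax, e1, e2]
        · rw [uV, if_neg (by omega), if_pos e1.symm, e2]
    · rw [Finset.sum_eq_single P.1 (fun m _ hm => by simp [uV, hm, ← e])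
        fun hn => absurd (Finset.mem_range.2 (lt P hP).1) hn]
      rw [uV, if_pos rfl, ← hyz P.2.2.2.1]
      congr 1
      rcases hh with ⟨e1, e2⟩ | ⟨e1, e2⟩
      · rw [vV, if_pos e1.symm, e2]
      · rcases mem_rows hQ with ⟨k, _, x, rfl⟩ | h
        · simp only [ax] at e1 e2
          simp [vV, ax, e1, e2]
        · rw [vV, if_neg (by omega), if_pos e1.symm, e2]
  · rcases mem_rows hP with ⟨k, _, x, rfl⟩ | ⟨h1, h2, h3, h4⟩
    · simp [hit, eqb, ax] at hh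
    · rw [← hL _ h4, Finset.sum_eq_add_of_mem P.1 P.2.1 (Finset.mem_range.2 h1)
        (Finset.mem_range.2 h2) h3 fun m _ hm => by simp [uV, hm.1, hm.2]]
      simp [uV, vV, h3.symm]

end C91

end Pool.Agent.Lib.MP_3930bf_lc
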