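import Pool.Agent.Lib.MP_3930bf_lc.Mat
import Pool.Agent.Lib.MP_3930bf_lc.Core
import Pool.Agent.Lib.helper82.CookLevin

/-! From a formula to a matrix completion instance. -/

namespace Pool.Agent.Lib.MP_3930bf_lc

namespace C91

open Pool.Agent.Lib.helper82 Module Submodule

attribute [local irreducible] tag

/-! ### Equations between reciprocals -/

variable (n : ℕ × Con → ℕ)

def gl (k : ℕ) : ℕ := n (k, false, one, one, one)
def vX (x : Atom) : ℕ := bif x.1 then gl n 3 else n (5, false, x, x, x)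
def sumG (a b c : ℕ) : RC := (true, a, c, b, c)
def prodG (a b c : ℕ) : RC := (false, a, c, gl n 1, b)

def gates (c : Con) : List RC :=
  bif c.1 then [prodG n (vX n c.2.1) (vX n c.2.2.1) (n (7, c)), sumG (n (7, c)) (gl n 4) (n (8, c)),
    sumG (vX n c.2.1) (vX n c.2.2.1) (n (6, c)), prodG n (gl n 2) (n (6, c)) (n (9, c)),
    sumG (vX n c.2.2.2) (n (9, c)) (n (8, c))]
  else [sumG (vX n c.2.1) (vX n c.2.2.1) (n (6, c)), sumG (vX n c.2.2.2) (gl n 2) (n (6, c))]

def rcs (ts : List ℕ) : List RC :=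
  (false, gl n 1, gl n 0, gl n 0, gl n 0) :: sumG (gl n 0) (gl n 2) (gl n 3) ::
    prodG n (gl n 2) (gl n 3) (gl n 4) :: (allCons ts).flatMap (gates n)

/-- The equation `j` holds. -/
def Eqn (y z : ℕ → ℝ) (j : RC) : Prop :=
  y j.2.1 * z j.2.2.1 + y j.2.2.2.1 * z j.2.2.2.2 = bv j.1

theorem gl0_mem (ts : List ℕ) : gl n 0 ∈ names (rcs n ts) :=
  (names_mem (j := (false, gl n 1, gl n 0, gl n 0, gl n 0)) List.mem_cons_self).2.1

theorem sat_of_sol {ts : List ℕ} (h : Sol (rcs n ts)) : ∃ w : Nm → ℝ, ∀ c ∈ allCons ts, Sat w c := by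
  obtain ⟨y, z, hn, he⟩ := h
  have h0 := hn _ (gl0_mem n ts)
  have hM : y (gl n 1) * z (gl n 0) = -1 := by
    have := he _ List.mem_cons_self
    simp only [bv, cond_false] at this
    linear_combination this - h0
  have hs : ∀ a b c, sumG a b c ∈ rcs n ts →
      y a * z (gl n 0) + y b * z (gl n 0) = y c * z (gl n 0) := fun a b c hm => by
    have e := he _ hm
    have m := hn _ (names_mem hm).2.1
    simp only [sumG, bv, cond_true] at e m
    linear_combination (y c * z (gl n 0)) * e - (y a + y b) * z (gl n 0) * m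
  have hp : ∀ a b c, prodG n a b c ∈ rcs n ts →
      y a * z (gl n 0) * (y b * z (gl n 0)) = y c * z (gl n 0) := fun a b c hm => by
    have e := he _ hm
    have m := hn _ (names_mem hm).2.1
    have m' := hn _ (names_mem hm).2.2.2
    simp only [prodG, bv, cond_false] at e m m'
    linear_combination (y c * y b * z (gl n 0) ^ 2) * e - y a * y b * z (gl n 0) ^ 2 * m -
      y c * y (gl n 1) * z (gl n 0) ^ 2 * m' - y c * z (gl n 0) * hM
  have hO := hs (gl n 0) (gl n 2) (gl n 3) (by simp [rcs])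
  have hQ := hp (gl n 2) (gl n 3) (gl n 4) (by simp [rcs])
  refine ⟨fun v => y (vX n (false, v)) * z (gl n 0) - y (gl n 2) * z (gl n 0), fun c hc => ?_⟩
  have hev : ∀ x, ev (fun v => y (vX n (false, v)) * z (gl n 0) - y (gl n 2) * z (gl n 0)) x =
      y (vX n x) * z (gl n 0) - y (gl n 2) * z (gl n 0) := by
    rintro ⟨_ | _, v⟩
    · rfl
    · simp only [ev, vX, cond_true]
      linear_combination hO - h0
  have hg : ∀ g ∈ gates n c, g ∈ rcs n ts := fun g hg => by
    simp only [rcs, List.mem_cons]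
    exact Or.inr (Or.inr (Or.inr (List.mem_flatMap.2 ⟨c, hc, hg⟩)))
  obtain ⟨_ | _, x1, x2, x3⟩ := c
  · have a1 := hs _ _ _ (hg _ List.mem_cons_self)
    have a2 := hs _ _ _ (hg _ (List.mem_cons_of_mem _ List.mem_cons_self))
    rw [sat_false, hev, hev, hev]
    simp only at a1 a2
    linear_combination a1 - a2
  · simp only [gates, cond_true, List.mem_cons, or_imp, forall_and, forall_eq] at hg
    have a1 := hp _ _ _ hg.1
    have a2 := hs _ _ _ hg.2.1
    have a3 := hs _ _ _ hg.2.2.1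
    have a4 := hp _ _ _ hg.2.2.2.1
    have a5 := hs _ _ _ hg.2.2.2.2.1
    rw [sat_true, hev, hev, hev]
    linear_combination a1 + a2 - a5 + hQ - a4 - y (gl n 2) * z (gl n 0) * a3 +
      y (gl n 2) * z (gl n 0) * hO - y (gl n 2) * z (gl n 0) * h0

noncomputable def yv (e : Atom → ℝ) (s : ℝ) (v : ℕ × Con) : ℝ :=
  if v.1 = 0 then 1 else if v.1 = 1 then -1 else if v.1 = 2 then s else if v.1 = 3 then 1 + s
  else if v.1 = 4 then s * (1 + s) else if v.1 = 5 then e v.2.2.1
  else if v.1 = 6 then e v.2.2.1 + e v.2.2.2.1 else if v.1 = 7 then e v.2.2.1 * e v.2.2.2.1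
  else if v.1 = 8 then e v.2.2.1 * e v.2.2.2.1 + s * (1 + s) else s * (e v.2.2.1 + e v.2.2.2.1)

theorem yv_ne {e : Atom → ℝ} {s : ℝ} (he : ∀ x, 0 < e x) (hs : 0 < s) (v : ℕ × Con) :
    yv e s v ≠ 0 := by
  have h1 := he v.2.2.1
  have h2 := he v.2.2.2.1
  unfold yv
  split_ifs <;> positivity

theorem shift : ∀ l : List ℝ, ∃ s : ℝ, 0 < s ∧ ∀ x ∈ l, 1 ≤ x + s
  | [] => ⟨1, one_pos, by simp⟩
  | a :: l => by
    obtain ⟨s, hs, h⟩ := shift l
    refine ⟨max s (1 - a), lt_max_of_lt_left hs, fun x hx => ?_⟩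
    rcases List.mem_cons.1 hx with rfl | hx
    · linarith [le_max_right s (1 - x)]
    · linarith [le_max_left s (1 - a), h x hx]

theorem sol_of_sat (hn : Function.Injective n) {ts : List ℕ} (w : Nm → ℝ) (hw : ∀ c ∈ allCons ts, Sat w c) :
    ∃ y : ℕ → ℝ, (∀ x, y x ≠ 0) ∧ ∀ j ∈ rcs n ts, Eqn y (fun x => (y x)⁻¹) j := by
  obtain ⟨s, hs, h⟩ := shift ((allCons ts).flatMap fun c => [ev w c.2.1, ev w c.2.2.1, ev w c.2.2.2])
  let e : Atom → ℝ := fun x => max (ev w x + s) 1
  have he : ∀ x, 0 < e x := fun x => lt_max_of_lt_right one_pos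
  let y : ℕ → ℝ := Function.extend n (yv e s) 1
  have hy : ∀ v, y (n v) = yv e s v := fun v => hn.extend_apply _ _ v
  have hne : ∀ x, y x ≠ 0 := fun x => by
    by_cases hx : ∃ v, n v = x
    · obtain ⟨v, rfl⟩ := hx
      exact (hy v).trans_ne (yv_ne he hs v)
    · simp only [y]
      rw [Function.extend_apply' _ _ _ hx]
      exact one_ne_zero
  have hM : y (gl n 1) = -1 := by simp [gl, hy, yv]
  have hS : y (gl n 2) = s := by simp [gl, hy, yv]
  have hO : y (gl n 3) = 1 + s := by simp [gl, hy, yv]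
  have hQ : y (gl n 4) = s * (1 + s) := by simp [gl, hy, yv]
  have hsum : ∀ a b c, y a + y b = y c → Eqn y (fun x => (y x)⁻¹) (sumG a b c) := fun a b c h => by
    simp only [Eqn, sumG, bv, cond_true]
    rw [← add_mul, h, mul_inv_cancel₀ (hne c)]
  have hprod : ∀ a b c, y a * y b = y c → Eqn y (fun x => (y x)⁻¹) (prodG n a b c) :=
    fun a b c h => by
      have h1 := hne a
      have h2 := hne b
      simp only [Eqn, prodG, bv, cond_false]
      rw [← h, hM]
      field_simp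
      ring
  have hX : ∀ x, y (vX n x) = e x := by
    rintro ⟨_ | _, v⟩
    · simp [vX, hy, yv]
    · simp only [vX, cond_true, hO, e, ev]
      rw [max_eq_left (by linarith)]
  refine ⟨y, hne, fun j hj => ?_⟩
  simp only [rcs, List.mem_cons] at hj
  rcases hj with rfl | rfl | rfl | hj
  · simp [Eqn, gl, hy, yv, bv]
  · exact hsum _ _ _ (by simp [gl, hy, yv])
  · exact hprod _ _ _ (by rw [hS, hO, hQ])
  obtain ⟨c, hc, hj⟩ := List.mem_flatMap.1 hj
  have e1 : e c.2.1 = ev w c.2.1 + s := max_eq_left (h _ (List.mem_flatMap.2 ⟨c, hc, by simp⟩))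
  have e2 : e c.2.2.1 = ev w c.2.2.1 + s :=
    max_eq_left (h _ (List.mem_flatMap.2 ⟨c, hc, by simp⟩))
  have e3 : e c.2.2.2 = ev w c.2.2.2 + s :=
    max_eq_left (h _ (List.mem_flatMap.2 ⟨c, hc, by simp⟩))
  have h6 : y (n (6, c)) = e c.2.1 + e c.2.2.1 := by simp [hy, yv]
  have h7 : y (n (7, c)) = e c.2.1 * e c.2.2.1 := by simp [hy, yv]
  have h8 : y (n (8, c)) = e c.2.1 * e c.2.2.1 + s * (1 + s) := by simp [hy, yv]
  have h9 : y (n (9, c)) = s * (e c.2.1 + e c.2.2.1) := by simp [hy, yv]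
  have hc' := hw c hc
  obtain ⟨_ | _, x1, x2, x3⟩ := c
  · rw [sat_false] at hc'
    simp only [gates, cond_false, List.mem_cons, List.not_mem_nil, or_false] at hj e1 e2 e3
    rcases hj with rfl | rfl
    · exact hsum _ _ _ (by rw [hX, hX, h6])
    · exact hsum _ _ _ (by rw [hX, hS, h6, e1, e2, e3]; linear_combination -hc')
  · rw [sat_true] at hc'
    simp only [gates, cond_true, List.mem_cons, List.not_mem_nil, or_false] at hj e1 e2 e3
    rcases hj with rfl | rfl | rfl | rfl | rfl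
    · exact hprod _ _ _ (by rw [hX, hX, h7])
    · exact hsum _ _ _ (by rw [h7, hQ, h8])
    · exact hsum _ _ _ (by rw [hX, hX, h6])
    · exact hprod _ _ _ (by rw [hS, h6, h9])
    · exact hsum _ _ _ (by rw [hX, h9, h8, e1, e2, e3]; linear_combination -hc')

/-! ### The matrix -/

instance decRC : DecidableEq RC := instDecidableEqProd
instance decIx : DecidableEq Ix := instDecidableEqProd

def nm (v : ℕ × Con) : ℕ := tag false v

def ent (p q : ℕ × Ix) : E :=
  bif meet p.2 q.2 then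
    bif hit p.2 q.2 then .inl 1
    else if p.2 = q.2 then .inl (bif p.2.2.2.1 then 1 else 0) else .inr (tag true (p.1, q.1))
  else .inl 0

def num (r : ℕ) (ts : List ℕ) : List (ℕ × Ix) :=
  (rows r (rcs nm ts)).zipIdx.map fun p => (p.2, p.1)

def inst (r : ℕ) (ts : List ℕ) : Inst :=
  ⟨(num r ts).length, fun i j => ent (num r ts)[i] (num r ts)[j], r⟩

theorem nm_pt {α : Type} [Enc α] (k : ℕ) {F : α → Con} (hF : PT F) : PT fun a => nm (k, F a) :=
  PT.tag false (PT.pair (PT.const k) hF)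

theorem vX_pt : PT (vX nm) :=
  PT.cond PT.fst' (PT.const _)
    (nm_pt 5 (PT.pair (PT.const false) (PT.pair PT.id (PT.pair PT.id PT.id))))

theorem gates_pt : PT (gates nm) := by
  have hs : ∀ {a b c : Con → ℕ}, PT a → PT b → PT c → PT fun x => sumG (a x) (b x) (c x) :=
    fun ha hb hc => PT.pair (PT.const true) (PT.pair ha (PT.pair hc (PT.pair hb hc)))
  have hp : ∀ {a b c : Con → ℕ}, PT a → PT b → PT c → PT fun x => prodG nm (a x) (b x) (c x) :=
    fun ha hb hc => PT.pair (PT.const false) (PT.pair ha (PT.pair hc (PT.pair (PT.const _) hb)))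
  have x1 : PT fun c : Con => vX nm c.2.1 := PT.comp vX_pt (PT.fst PT.snd')
  have x2 : PT fun c : Con => vX nm c.2.2.1 := PT.comp vX_pt (PT.fst (PT.snd PT.snd'))
  have x3 : PT fun c : Con => vX nm c.2.2.2 := PT.comp vX_pt (PT.snd (PT.snd PT.snd'))
  have n : ∀ k, PT fun c : Con => nm (k, c) := fun k => nm_pt k PT.id
  have g : ∀ k, PT fun _ : Con => gl nm k := fun k => PT.const _
  exact PT.cond PT.fst' (PT.cons (hp x1 x2 (n 7)) (PT.cons (hs (n 7) (g 4) (n 8))
    (PT.cons (hs x1 x2 (n 6)) (PT.cons (hp (g 2) (n 6) (n 9)) (PT.cons (hs x3 (n 9) (n 8))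
    (PT.const [])))))) (PT.cons (hs x1 x2 (n 6)) (PT.cons (hs x3 (g 2) (n 6)) (PT.const [])))

theorem rcs_pt : PT (rcs nm) :=
  PT.cons (PT.const _) (PT.cons (PT.const _) (PT.cons (PT.const _)
    (PT.flatMap (F := fun _ (c : Con) => gates nm c) allCons_pt (PT.comp gates_pt PT.snd'))))

theorem names_pt : PT names :=
  PT.flatMap (F := fun _ (j : RC) => [j.2.1, j.2.2.1, j.2.2.2.1, j.2.2.2.2]) PT.id
    (PT.cons (PT.fst (PT.snd PT.snd')) (PT.cons (PT.fst (PT.snd (PT.snd PT.snd')))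
      (PT.cons (PT.fst (PT.snd (PT.snd (PT.snd PT.snd'))))
        (PT.cons (PT.snd (PT.snd (PT.snd (PT.snd PT.snd')))) (PT.const [])))))

theorem rows_pt (r : ℕ) : PT (rows r) := by
  refine PT.flatMap (F := fun (L : List RC) (kl : ℕ × ℕ) =>
    if kl.1 = kl.2 then (names L).map (ax kl.1) else L.map fun j => (kl.1, kl.2, j))
    (PT.const _) (PT.iteEq (PT.fst PT.snd') (PT.snd PT.snd') ?_ ?_)
  · exact PT.map (F := fun (p : List RC × ℕ × ℕ) (x : ℕ) => ax p.2.1 x) (PT.comp names_pt PT.fst')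
      (PT.pair (PT.fst (PT.snd PT.fst')) (PT.pair (PT.fst (PT.snd PT.fst')) (PT.pair (PT.const false)
        (PT.pair PT.snd' (PT.pair PT.snd' (PT.pair PT.snd' PT.snd'))))))
  · exact PT.map (F := fun (p : List RC × ℕ × ℕ) (j : RC) => ((p.2.1, p.2.2, j) : Ix)) PT.fst'
      (PT.pair (PT.fst (PT.snd PT.fst')) (PT.pair (PT.snd (PT.snd PT.fst')) PT.snd'))

theorem ent_pt : PT fun p : (ℕ × Ix) × ℕ × Ix => ent p.1 p.2 := by
  have q : ∀ {F G : (ℕ × Ix) × ℕ × Ix → ℕ}, PT F → PT G → PT fun p => eqb (F p) (G p) :=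
    fun hF hG => PT.eq hF hG
  have P : PT fun p : (ℕ × Ix) × ℕ × Ix => p.1.2 := PT.snd PT.fst'
  have Q : PT fun p : (ℕ × Ix) × ℕ × Ix => p.2.2 := PT.snd PT.snd'
  have P1 := PT.fst P
  have P2 := PT.fst (PT.snd P)
  have Pa := PT.fst (PT.snd (PT.snd (PT.snd P)))
  have Pc := PT.fst (PT.snd (PT.snd (PT.snd (PT.snd (PT.snd P)))))
  have Q1 := PT.fst Q
  have Q2 := PT.fst (PT.snd Q)
  have Qb := PT.fst (PT.snd (PT.snd (PT.snd (PT.snd Q))))
  have Qd := PT.snd (PT.snd (PT.snd (PT.snd (PT.snd (PT.snd Q)))))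
  refine PT.cond (PT.or (PT.or (PT.or (q P1 Q1) (q P1 Q2)) (q P2 Q1)) (q P2 Q2))
    (PT.cond (PT.or
      (PT.and (q Q1 Q2) (PT.or (PT.and (q P1 Q1) (q Pa Qb)) (PT.and (q P2 Q1) (q Pc Qb))))
      (PT.and (q P1 P2) (PT.or (PT.and (q Q1 P1) (q Qb Pa)) (PT.and (q Q2 P1) (q Qd Pa)))))
      (PT.const _) (PT.iteEq P Q ?_ (inr_pt (PT.tag true
        (PT.pair (PT.fst PT.fst') (PT.fst PT.snd')))))) (PT.const _)
  exact (PT.cond (PT.fst (PT.snd (PT.snd P))) (PT.const (Sum.inl 1 : E))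
    (PT.const (Sum.inl 0 : E))).congr fun p => by cases p.1.2.2.2.1 <;> rfl

def table (r : ℕ) (ts : List ℕ) : ℕ × List (List (Bool × ℚ × ℕ)) :=
  (r, (num r ts).map fun p => (num r ts).map fun q => entryCode (ent p q))

theorem num_pt (r : ℕ) : PT (num r) := by
  have h2 : PT fun ts => rows r (rcs nm ts) := PT.comp (G := rows r) (rows_pt r) rcs_pt
  exact PT.enum h2

theorem table_pt (r : ℕ) : PT (table r) := by
  have h0 : PT entryCode := PTR.id
  have h2 : PT fun p : (ℕ × Ix) × ℕ × Ix => entryCode (ent p.1 p.2) := PT.comp h0 ent_pt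
  refine PT.pair (PT.const _) (PT.map (F := fun (ts : List ℕ) (p : ℕ × Ix) =>
    (num r ts).map fun q => entryCode (ent p q)) (num_pt r) ?_)
  exact PT.map (F := fun (a : List ℕ × ℕ × Ix) (q : ℕ × Ix) => entryCode (ent a.2 q))
    (PT.comp (G := num r) (num_pt r) PT.fst')
    (PT.comp₂ (G := fun p q => entryCode (ent p q)) h2 (PT.snd PT.fst') PT.snd')

theorem encInst_inst (r : ℕ) (ts : List ℕ) : encInst (inst r ts) = enc (table r ts) := by
  unfold encInst table
  congr 2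
  simp only [inst]
  have h1 : ∀ p : ℕ × Ix, (List.ofFn fun j : Fin (num r ts).length =>
      entryCode (ent p (num r ts)[j])) = (num r ts).map fun q => entryCode (ent p q) :=
    fun p => List.ofFn_getElem_eq_map _ fun q => entryCode (ent p q)
  simp only [Fin.getElem_fin] at h1 ⊢
  simp only [h1]
  exact List.ofFn_getElem_eq_map _ fun p => (num r ts).map fun q => entryCode (ent p q)

theorem inst_tm2 (r : ℕ) :
    Nonempty (Turing.TM2ComputableInPolyTime encFm encInst fun φ => inst r φ.code) := by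
  have h : PTR encFm fun φ : Fm => enc (table r φ.code) :=
    PTR.comp (F := Fm.code) (table_pt r) PTR.id
  exact PTR.toTM2 (h.congr fun φ => (encInst_inst r φ.code).symm)

theorem num_fst (r : ℕ) (ts : List ℕ) (i : Fin (num r ts).length) : (num r ts)[i].1 = i := by
  obtain ⟨i, hi⟩ := i
  simp [num]

theorem num_snd (r : ℕ) (ts : List ℕ) (i : Fin (num r ts).length) :
    (num r ts)[i].2 ∈ rows r (rcs nm ts) := by
  obtain ⟨i, hi⟩ := i
  simp [num]

theorem num_onto (r : ℕ) (ts : List ℕ) {P : Ix} (h : P ∈ rows r (rcs nm ts)) :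
    ∃ i : Fin (num r ts).length, (num r ts)[i].2 = P := by
  obtain ⟨i, hi, e⟩ := List.getElem_of_mem h
  exact ⟨⟨i, by simpa [num] using hi⟩, by simpa [num] using e⟩

theorem ent_inr {p q : ℕ × Ix} {n : ℕ} (h : ent p q = .inr n) : n = tag true (p.1, q.1) := by
  unfold ent at h
  cases h1 : meet p.2 q.2 <;> cases h2 : hit p.2 q.2 <;> simp only [h1, h2, cond_true, cond_false] at h
  · cases h
  · cases h
  · split_ifs at h
    exact (Sum.inr.inj h).symm
  · cases h

theorem ent_inl {p q : ℕ × Ix} {c : ℚ} (h : ent p q = .inl c) : c = 0 ∨ c = 1 := by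
  unfold ent at h
  cases h1 : meet p.2 q.2 <;> cases h2 : hit p.2 q.2 <;> simp only [h1, h2, cond_true, cond_false] at h
  · exact Or.inl (Sum.inl.inj h).symm
  · exact Or.inl (Sum.inl.inj h).symm
  · split_ifs at h
    rw [← Sum.inl.inj h]
    cases p.2.2.2.1 <;> simp
  · exact Or.inr (Sum.inl.inj h).symm

abbrev mat (r : ℕ) (ts : List ℕ) (a : ℕ → ℝ) :
    Matrix (Fin (num r ts).length) (Fin (num r ts).length) ℝ :=
  Matrix.of fun i j => evE a ((inst r ts).entry i j)

theorem bv_cast (b : Bool) : (((bif b then 1 else 0 : ℚ)) : ℝ) = bv b := by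
  cases b <;> simp [bv]

theorem rank_no (r t : ℕ) (ht : r ≤ 2 ^ t) (ts : List ℕ) (a : ℕ → ℝ) (hno : ¬ Sol (rcs nm ts)) :
    2 * r ≤ (mat r ts a).rank + 2 * t + 2 := by
  rcases Nat.eq_zero_or_pos r with rfl | hr
  · omega
  obtain ⟨i0, -⟩ := num_onto r ts (ax_mem hr (gl0_mem nm ts))
  have h1 : ∀ P, ∃ i : Fin (num r ts).length, P ∈ rows r (rcs nm ts) → (num r ts)[i].2 = P := by
    intro P
    by_cases h : P ∈ rows r (rcs nm ts)
    · obtain ⟨i, hi⟩ := num_onto r ts h
      exact ⟨i, fun _ => hi⟩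
    · exact ⟨i0, fun h' => absurd h' h⟩
  choose f hf using h1
  rw [Matrix.rank_eq_finrank_span_row]
  have hm : ∀ P Q, mat r ts a (f P) (f Q) = evE a (ent (num r ts)[f P] (num r ts)[f Q]) :=
    fun _ _ => rfl
  refine core t ht _ (fun P => (mat r ts a).row (f P)) (fun Q => LinearMap.proj (f Q))
    (fun P _ => subset_span ⟨_, rfl⟩) ⟨fun P hP Q hQ h => ?_, fun P hP Q hQ h h' => ?_,
      fun P hP h => ?_⟩ (gl0_mem nm ts) hno
  · change mat r ts a (f P) (f Q) = 0
    rw [hm, ent, hf P hP, hf Q hQ, h]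
    simp
  · change mat r ts a (f P) (f Q) = 1
    rw [hm, ent, hf P hP, hf Q hQ, h, h']
    simp
  · change mat r ts a (f P) (f P) = _
    rw [hm, ent, hf P hP, h, show meet P P = true by simp [meet, eqb], ← bv_cast]
    simp

theorem rank_yes (r : ℕ) (ts : List ℕ) (y : ℕ → ℝ) (hy : ∀ x, y x ≠ 0)
    (hL : ∀ j ∈ rcs nm ts, Eqn y (fun x => (y x)⁻¹) j) : ∃ a : ℕ → ℝ, (mat r ts a).rank ≤ r := by
  have hp := pat_yes (r := r) y (fun x => (y x)⁻¹) (fun x => mul_inv_cancel₀ (hy x)) hL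
  let g : Fin (num r ts).length × Fin (num r ts).length → ℕ := fun p =>
    tag true ((p.1 : ℕ), (p.2 : ℕ))
  have hg : Function.Injective g := fun p q h => by
    have := Prod.mk.inj (tag_injective true h)
    exact Prod.ext (Fin.ext this.1) (Fin.ext this.2)
  let Y : Ix → Ix → ℝ := fun P Q => ∑ m ∈ Finset.range r, uV y P m * vV (fun x => (y x)⁻¹) Q m
  let a : ℕ → ℝ := Function.extend g (fun p => Y (num r ts)[p.1].2 (num r ts)[p.2].2) 0
  refine ⟨a, ?_⟩
  have e : mat r ts a = (Matrix.of fun (i : Fin (num r ts).length) (m : Fin r) =>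
      uV y (num r ts)[i].2 m) * (Matrix.of fun (m : Fin r) (j : Fin (num r ts).length) =>
        vV (fun x => (y x)⁻¹) (num r ts)[j].2 m) := by
    ext i j
    have e1 : evE a (ent (num r ts)[i] (num r ts)[j]) = Y (num r ts)[i].2 (num r ts)[j].2 := by
      have hi := num_snd r ts i
      have hj := num_snd r ts j
      unfold ent
      cases h1 : meet (num r ts)[i].2 (num r ts)[j].2
      · exact ((hp.zero _ hi _ hj h1).trans (by simp)).symm
      cases h2 : hit (num r ts)[i].2 (num r ts)[j].2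
      · simp only [cond_true, cond_false]
        split_ifs with h3
        · rw [← h3] at h2 ⊢
          exact ((hp.dia _ hi h2).trans (bv_cast _).symm).symm
        · rw [num_fst, num_fst]
          exact hg.extend_apply (fun p => Y (num r ts)[p.1].2 (num r ts)[p.2].2) 0 (i, j)
      · exact ((hp.one _ hi _ hj h1 h2).trans (by simp)).symm
    refine e1.trans ?_
    simp only [Y, Matrix.mul_apply, Matrix.of_apply]
    exact (Fin.sum_univ_eq_sum_range (fun m => uV y (num r ts)[i].2 m *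
      vV (fun x => (y x)⁻¹) (num r ts)[j].2 m) r).symm
  rw [e]
  exact (Matrix.rank_mul_le_left _ _).trans ((Matrix.rank_le_card_width _).trans (by simp))

theorem main (r t : ℕ) (ht : r ≤ 2 ^ t) :
    ∃ f : Fm → Inst, Nonempty (Turing.TM2ComputableInPolyTime encFm encInst f) ∧
      ∀ φ : Fm, (f φ).r = r ∧ (∀ i j q, (f φ).entry i j = Sum.inl q → q = 0 ∨ q = 1) ∧
        (∀ i j i' j' n, (f φ).entry i j = Sum.inr n → (f φ).entry i' j' = Sum.inr n →
          i = i' ∧ j = j') ∧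
        ((∃ y, φ.Holds y) → (f φ).mr ≤ r) ∧
        ((¬ ∃ y, φ.Holds y) → 2 * r ≤ (f φ).mr + 2 * t + 2) := by
  refine ⟨fun φ => inst r φ.code, inst_tm2 r, fun φ => ⟨rfl, fun i j q h => ent_inl h,
    fun i j i' j' n h h' => ?_, fun h => ?_, fun h => ?_⟩⟩
  · have e := Prod.mk.inj (tag_injective true ((ent_inr h).symm.trans (ent_inr h')))
    exact ⟨Fin.ext ((num_fst r _ i).symm.trans (e.1.trans (num_fst r _ i'))),
      Fin.ext ((num_fst r _ j).symm.trans (e.2.trans (num_fst r _ j')))⟩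
  · obtain ⟨w, hw⟩ := (holds_iff φ).1 h
    obtain ⟨y, hy, hL⟩ := sol_of_sat nm (tag_injective false) w hw
    obtain ⟨a, ha⟩ := rank_yes r φ.code y hy hL
    exact (Nat.sInf_le (s := {k : ℕ | ∃ a : ℕ → ℝ, (mat r φ.code a).rank = k}) ⟨a, rfl⟩).trans ha
  · obtain ⟨a, ha⟩ := Nat.sInf_mem (s := {k : ℕ | ∃ a : ℕ → ℝ, (mat r φ.code a).rank = k})
      ⟨_, 0, rfl⟩
    have := rank_no r t ht φ.code a fun hs => h ((holds_iff φ).2 (sat_of_sol nm hs))
    rw [ha] at this
    exact this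

end C91

end Pool.Agent.Lib.MP_3930bf_lc
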