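import Pool.Agent.Lib.MP_3930bf_lc.Defs
import Pool.Agent.Lib.helper82.PT

/-! From a formula to a system of equations `x + y = z` and `x * y = z`. -/

namespace Pool.Agent.Lib.MP_3930bf_lc

open Pool.Agent.Lib.helper82

abbrev Nm := ℕ × List Bool
abbrev Atom := Bool × Nm
abbrev Con := Bool × Atom × Atom × Atom

def one : Atom := (true, 0, [])
def nv (k : ℕ) (π : List Bool) : Atom := (false, k, π)

def consOf (π : List Bool) (t : ℕ) : List Con :=
  if t = 0 then [(false, nv 0 π, nv 0 π, nv 0 π)]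
  else if t = 1 then [(true, one, one, nv 0 π)]
  else if t = 2 then [(false, nv 0 (false :: π), nv 0 (true :: π), nv 0 π)]
  else if t = 3 then [(true, nv 0 (false :: π), nv 0 (true :: π), nv 0 π)]
  else if t = 4 then [(false, nv 1 π, nv 0 (true :: π), nv 0 (false :: π)),
    (true, nv 0 π, nv 0 (false :: π), nv 2 π), (true, nv 0 π, nv 0 (true :: π), nv 2 π),
    (true, nv 1 π, nv 3 π, nv 4 π), (false, nv 4 π, nv 0 π, one)]
  else if t = 5 then [(false, nv 1 π, nv 0 (false :: π), nv 0 (true :: π)),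
    (true, nv 2 π, nv 2 π, nv 3 π), (true, nv 1 π, nv 3 π, nv 4 π),
    (false, nv 1 π, nv 3 π, nv 5 π), (true, nv 0 π, nv 0 π, nv 0 π),
    (true, nv 0 π, nv 4 π, nv 0 π), (true, nv 0 π, nv 5 π, nv 5 π)]
  else if t = 6 then [(false, nv 0 π, nv 0 (true :: π), one)]
  else if t = 7 then [(true, nv 0 (false :: π), nv 0 (true :: π), nv 0 π)]
  else if t = 8 then [(true, nv 0 (false :: π), nv 0 (true :: π), nv 1 π),
    (false, nv 0 (false :: π), nv 0 (true :: π), nv 2 π), (false, nv 0 π, nv 1 π, nv 2 π)]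
  else [(true, one, nv t [], nv 0 π)]

def up (π : List Bool) : List Bool := true :: (π.dropWhile fun b => b).tail

def nxt (π : List Bool) (t : ℕ) : List Bool :=
  if t = 6 then true :: π
  else if t ∈ [2, 3, 4, 5, 7, 8] then false :: π
  else up π

def allCons (ts : List ℕ) : List Con :=
  (true, one, one, nv 0 []) :: (PT.scan nxt [] ts).flatMap fun p => consOf p.1 p.2

/-! ### Polynomial time -/

theorem nv_pt {α : Type} [Enc α] (k : ℕ) {F : α → List Bool} (hF : PT F) :
    PT fun a => nv k (F a) :=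
  PT.pair (PT.const false) (PT.pair (PT.const k) hF)

theorem consOf_pt : PT fun p : List Bool × ℕ => consOf p.1 p.2 := by
  have hv : ∀ k, PT fun p : List Bool × ℕ => nv k p.1 := fun k => nv_pt k PT.fst'
  have hl : PT fun p : List Bool × ℕ => nv 0 (false :: p.1) :=
    nv_pt 0 (PT.cons (PT.const false) PT.fst')
  have hr : PT fun p : List Bool × ℕ => nv 0 (true :: p.1) :=
    nv_pt 0 (PT.cons (PT.const true) PT.fst')
  have ho : PT fun _ : List Bool × ℕ => one := PT.const one
  have hs : PT fun p : List Bool × ℕ => nv p.2 [] :=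
    PT.pair (PT.const false) (PT.pair PT.snd' (PT.const []))
  have hc : ∀ (b : Bool) {x y z : List Bool × ℕ → Atom}, PT x → PT y → PT z →
      PT fun p => ((b, x p, y p, z p) : Con) := fun b _ _ _ hx hy hz =>
    PT.pair (PT.const b) (PT.pair hx (PT.pair hy hz))
  have hn : PT fun _ : List Bool × ℕ => ([] : List Con) := PT.const []
  unfold consOf
  refine PT.iteEq PT.snd' (PT.const 0) (PT.cons (hc _ (hv 0) (hv 0) (hv 0)) hn) ?_
  refine PT.iteEq PT.snd' (PT.const 1) (PT.cons (hc _ ho ho (hv 0)) hn) ?_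
  refine PT.iteEq PT.snd' (PT.const 2) (PT.cons (hc _ hl hr (hv 0)) hn) ?_
  refine PT.iteEq PT.snd' (PT.const 3) (PT.cons (hc _ hl hr (hv 0)) hn) ?_
  refine PT.iteEq PT.snd' (PT.const 4) (PT.cons (hc _ (hv 1) hr hl) (PT.cons (hc _ (hv 0) hl (hv 2))
    (PT.cons (hc _ (hv 0) hr (hv 2)) (PT.cons (hc _ (hv 1) (hv 3) (hv 4))
    (PT.cons (hc _ (hv 4) (hv 0) ho) hn))))) ?_
  refine PT.iteEq PT.snd' (PT.const 5) (PT.cons (hc _ (hv 1) hl hr)
    (PT.cons (hc _ (hv 2) (hv 2) (hv 3)) (PT.cons (hc _ (hv 1) (hv 3) (hv 4))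
    (PT.cons (hc _ (hv 1) (hv 3) (hv 5)) (PT.cons (hc _ (hv 0) (hv 0) (hv 0))
    (PT.cons (hc _ (hv 0) (hv 4) (hv 0)) (PT.cons (hc _ (hv 0) (hv 5) (hv 5)) hn))))))) ?_
  refine PT.iteEq PT.snd' (PT.const 6) (PT.cons (hc _ (hv 0) hr ho) hn) ?_
  refine PT.iteEq PT.snd' (PT.const 7) (PT.cons (hc _ hl hr (hv 0)) hn) ?_
  refine PT.iteEq PT.snd' (PT.const 8) (PT.cons (hc _ hl hr (hv 1)) (PT.cons (hc _ hl hr (hv 2))
    (PT.cons (hc _ (hv 0) (hv 1) (hv 2)) hn))) ?_
  exact PT.cons (hc _ ho hs (hv 0)) hn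

def dropStep (s : List Bool) : List Bool := bif s.headD false then s.tail else s

theorem foldl_dropStep_fix (s : List Bool) (hs : dropStep s = s) :
    ∀ l : List Bool, l.foldl (fun s _ => dropStep s) s = s := by
  intro l
  induction l with
  | nil => rfl
  | cons b l ih => simp [hs, ih]

theorem foldl_dropStep : ∀ (l s : List Bool), s.length ≤ l.length →
    l.foldl (fun s _ => dropStep s) s = s.dropWhile fun b => b := by
  intro l
  induction l with
  | nil => intro s hs; simp at hs; simp [hs]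
  | cons b l ih =>
    intro s hs
    rcases s with _ | ⟨_ | _, s⟩
    · exact foldl_dropStep_fix _ rfl _
    · exact foldl_dropStep_fix _ rfl _
    · simp only [List.foldl_cons]
      rw [show dropStep (true :: s) = s from rfl, ih s (by simpa using hs)]
      simp

theorem up_pt : PT up := by
  have h := PT.foldl_add (h := fun (_ : List Bool) (s : List Bool) (_ : Bool) => dropStep s)
    PT.id PT.id (PT.cond (PT.headD (PT.fst PT.snd') false) (PT.tail (PT.fst PT.snd'))
      (PT.fst PT.snd')) (fun _ => 0) (Bd.const 0) (by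
      intro a s b _
      unfold dropStep
      cases s.headD false
      · simp
      · simpa using sz_tail_le s)
  refine (PT.cons (PT.const true) (PT.tail h)).congr fun π => ?_
  rw [foldl_dropStep _ _ le_rfl, up]

theorem nxt_pt : PT fun p : List Bool × ℕ => nxt p.1 p.2 := by
  unfold nxt
  refine PT.iteEq PT.snd' (PT.const 6) (PT.cons (PT.const true) PT.fst') ?_
  refine PT.ite (PT.comp (G := fun t : ℕ => decide (t ∈ [2, 3, 4, 5, 7, 8])) ?_ PT.snd')
    (PT.cons (PT.const false) PT.fst') (PT.comp up_pt PT.fst')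
  exact PT.ofFinite false [2, 3, 4, 5, 7, 8] _ fun a ha => by simpa using ha

theorem sz_dropWhile_le (π : List Bool) : sz (π.dropWhile fun b => b) ≤ sz π := by
  have := sz_append (π.takeWhile fun b => b) (π.dropWhile fun b => b)
  rw [List.takeWhile_append_dropWhile] at this
  omega

theorem sz_nxt (π : List Bool) (t : ℕ) : sz (nxt π t) ≤ sz π + 3 := by
  unfold nxt up
  have h1 := sz_tail_le (π.dropWhile fun b => b)
  have h2 := sz_dropWhile_le π
  split_ifs <;> rw [sz_cons, sz_bool] <;> omega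

theorem allCons_pt : PT allCons :=
  PT.cons (PT.const _) (PT.flatMap (F := fun _ (p : List Bool × ℕ) => consOf p.1 p.2)
    (PT.scan_pt PT.id (PT.const []) nxt_pt 3 sz_nxt) (PT.comp consOf_pt PT.snd'))

/-! ### Semantics -/

inductive Ex
  | zero : Ex
  | one : Ex
  | var : ℕ → Ex
  | add : Ex → Ex → Ex
  | mul : Ex → Ex → Ex
  | eq : Ex → Ex → Ex
  | lt : Ex → Ex → Ex
  | not : Ex → Ex
  | and : Ex → Ex → Ex
  | or : Ex → Ex → Ex

def Ex.code : Ex → List ℕ
  | .zero => [0]
  | .one => [1]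
  | .var n => [n + 9]
  | .add s t => 2 :: (s.code ++ t.code)
  | .mul s t => 3 :: (s.code ++ t.code)
  | .eq s t => 4 :: (s.code ++ t.code)
  | .lt s t => 5 :: (s.code ++ t.code)
  | .not s => 6 :: s.code
  | .and s t => 7 :: (s.code ++ t.code)
  | .or s t => 8 :: (s.code ++ t.code)

noncomputable def Ex.val (y : ℕ → ℝ) : Ex → ℝ
  | .zero => 0
  | .one => 1
  | .var n => y n
  | .add s t => s.val y + t.val y
  | .mul s t => s.val y * t.val y
  | .eq s t => if s.val y = t.val y then 1 else 0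
  | .lt s t => if s.val y < t.val y then 1 else 0
  | .not s => 1 - s.val y
  | .and s t => s.val y * t.val y
  | .or s t => s.val y + t.val y - s.val y * t.val y

def Ex.cons : Ex → List Bool → List Con
  | .zero, π => consOf π 0
  | .one, π => consOf π 1
  | .var n, π => consOf π (n + 9)
  | .add s t, π => consOf π 2 ++ (s.cons (false :: π) ++ t.cons (true :: π))
  | .mul s t, π => consOf π 3 ++ (s.cons (false :: π) ++ t.cons (true :: π))
  | .eq s t, π => consOf π 4 ++ (s.cons (false :: π) ++ t.cons (true :: π))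
  | .lt s t, π => consOf π 5 ++ (s.cons (false :: π) ++ t.cons (true :: π))
  | .not s, π => consOf π 6 ++ s.cons (true :: π)
  | .and s t, π => consOf π 7 ++ (s.cons (false :: π) ++ t.cons (true :: π))
  | .or s t, π => consOf π 8 ++ (s.cons (false :: π) ++ t.cons (true :: π))

theorem up_false (π : List Bool) : up (false :: π) = true :: π := rfl
theorem up_true (π : List Bool) : up (true :: π) = up π := rfl

theorem scan_code (e : Ex) : ∀ (π : List Bool) (rest : List ℕ),
    ((PT.scan nxt π (e.code ++ rest)).flatMap fun p => consOf p.1 p.2) =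
      e.cons π ++ (PT.scan nxt (up π) rest).flatMap fun p => consOf p.1 p.2 := by
  induction e with
  | zero => intro π rest; simp [Ex.code, Ex.cons, PT.scan, nxt]
  | one => intro π rest; simp [Ex.code, Ex.cons, PT.scan, nxt]
  | var n => intro π rest; simp [Ex.code, Ex.cons, PT.scan, nxt]
  | add s t ih1 ih2 =>
    intro π rest; simp [Ex.code, Ex.cons, PT.scan, nxt, ih1, ih2, up_false, up_true]
  | mul s t ih1 ih2 =>
    intro π rest; simp [Ex.code, Ex.cons, PT.scan, nxt, ih1, ih2, up_false, up_true]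
  | eq s t ih1 ih2 =>
    intro π rest; simp [Ex.code, Ex.cons, PT.scan, nxt, ih1, ih2, up_false, up_true]
  | lt s t ih1 ih2 =>
    intro π rest; simp [Ex.code, Ex.cons, PT.scan, nxt, ih1, ih2, up_false, up_true]
  | not s ih => intro π rest; simp [Ex.code, Ex.cons, PT.scan, nxt, ih, up_true]
  | and s t ih1 ih2 =>
    intro π rest; simp [Ex.code, Ex.cons, PT.scan, nxt, ih1, ih2, up_false, up_true]
  | or s t ih1 ih2 =>
    intro π rest; simp [Ex.code, Ex.cons, PT.scan, nxt, ih1, ih2, up_false, up_true]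

theorem allCons_code (e : Ex) : allCons e.code = (true, one, one, nv 0 []) :: e.cons [] := by
  have := scan_code e [] []
  simp only [List.append_nil, PT.scan, List.flatMap_nil] at this
  rw [allCons, this]

def ev (w : Nm → ℝ) (x : Atom) : ℝ := bif x.1 then 1 else w x.2

@[simp] theorem ev_one (w : Nm → ℝ) : ev w one = 1 := rfl
@[simp] theorem ev_nv (w : Nm → ℝ) (k : ℕ) (π : List Bool) : ev w (nv k π) = w (k, π) := rfl

def Sat (w : Nm → ℝ) (c : Con) : Prop :=
  bif c.1 then ev w c.2.1 * ev w c.2.2.1 = ev w c.2.2.2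
  else ev w c.2.1 + ev w c.2.2.1 = ev w c.2.2.2

@[simp] theorem sat_true (w : Nm → ℝ) (x y z : Atom) :
    Sat w (true, x, y, z) ↔ ev w x * ev w y = ev w z := Iff.rfl
@[simp] theorem sat_false (w : Nm → ℝ) (x y z : Atom) :
    Sat w (false, x, y, z) ↔ ev w x + ev w y = ev w z := Iff.rfl

theorem sound (w : Nm → ℝ) (e : Ex) : ∀ π, (∀ c ∈ e.cons π, Sat w c) →
    w (0, π) = e.val fun n => w (n + 9, []) := by
  induction e with
  | zero => intro π h; simp [Ex.cons, consOf] at h; simpa [Ex.val] using h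
  | one => intro π h; simp [Ex.cons, consOf] at h; simpa [Ex.val] using h.symm
  | var n => intro π h; simp [Ex.cons, consOf] at h; simpa [Ex.val] using h.symm
  | add s t ih1 ih2 =>
    intro π h
    simp only [Ex.cons, List.mem_append, or_imp, forall_and] at h
    obtain ⟨h0, h1, h2⟩ := h
    simp [consOf] at h0
    rw [Ex.val, ← ih1 _ h1, ← ih2 _ h2, h0]
  | mul s t ih1 ih2 =>
    intro π h
    simp only [Ex.cons, List.mem_append, or_imp, forall_and] at h
    obtain ⟨h0, h1, h2⟩ := h
    simp [consOf] at h0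
    rw [Ex.val, ← ih1 _ h1, ← ih2 _ h2, h0]
  | eq s t ih1 ih2 =>
    intro π h
    simp only [Ex.cons, List.mem_append, or_imp, forall_and] at h
    obtain ⟨h0, h1, h2⟩ := h
    simp only [consOf] at h0
    simp only [Nat.reduceEqDiff, if_false, if_true, List.mem_cons, List.not_mem_nil, or_false,
      or_imp, forall_and, forall_eq, sat_true, sat_false, ev_one, ev_nv] at h0
    obtain ⟨a1, a2, a3, a4, a5⟩ := h0
    rw [Ex.val, ← ih1 _ h1, ← ih2 _ h2]
    split_ifs with hh
    · have : w (1, π) = 0 := by linarith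
      rw [this] at a4
      linarith
    · have : w (0, π) * (w (0, false :: π) - w (0, true :: π)) = 0 := by linarith
      rcases mul_eq_zero.1 this with h | h
      · exact h
      · exact absurd (by linarith) hh
  | lt s t ih1 ih2 =>
    intro π h
    simp only [Ex.cons, List.mem_append, or_imp, forall_and] at h
    obtain ⟨h0, h1, h2⟩ := h
    simp only [consOf] at h0
    simp only [Nat.reduceEqDiff, if_false, if_true, List.mem_cons, List.not_mem_nil, or_false,
      or_imp, forall_and, forall_eq, sat_true, sat_false, ev_nv] at h0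
    obtain ⟨a1, a2, a3, a4, a5, a6, a7⟩ := h0
    rw [Ex.val, ← ih1 _ h1, ← ih2 _ h2]
    have hs : 0 ≤ w (3, π) := by rw [← a2]; exact mul_self_nonneg _
    have ht : w (0, π) = 0 ∨ w (0, π) = 1 := by
      have : w (0, π) * (w (0, π) - 1) = 0 := by linarith
      rcases mul_eq_zero.1 this with h | h
      · exact Or.inl h
      · exact Or.inr (by linarith)
    split_ifs with hh
    · rcases ht with ht | ht
      · rw [ht] at a7
        linarith
      · exact ht
    · rcases ht with ht | ht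
      · exact ht
      · rw [ht] at a6
        have hd : w (1, π) ≤ 0 := by linarith [not_lt.1 hh]
        nlinarith
  | not s ih =>
    intro π h
    simp only [Ex.cons, List.mem_append, or_imp, forall_and] at h
    obtain ⟨h0, h1⟩ := h
    simp [consOf] at h0
    rw [Ex.val, ← ih _ h1]
    linarith
  | and s t ih1 ih2 =>
    intro π h
    simp only [Ex.cons, List.mem_append, or_imp, forall_and] at h
    obtain ⟨h0, h1, h2⟩ := h
    simp [consOf] at h0
    rw [Ex.val, ← ih1 _ h1, ← ih2 _ h2, h0]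
  | or s t ih1 ih2 =>
    intro π h
    simp only [Ex.cons, List.mem_append, or_imp, forall_and] at h
    obtain ⟨h0, h1, h2⟩ := h
    simp [consOf] at h0
    rw [Ex.val, ← ih1 _ h1, ← ih2 _ h2]
    linarith [h0.1, h0.2.1, h0.2.2]

def Ex.child : Ex → Bool → Ex
  | .add s t, b => bif b then t else s
  | .mul s t, b => bif b then t else s
  | .eq s t, b => bif b then t else s
  | .lt s t, b => bif b then t else s
  | .not s, _ => s
  | .and s t, b => bif b then t else s
  | .or s t, b => bif b then t else s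
  | _, _ => .zero

def Ex.sub : Ex → List Bool → Ex
  | e, [] => e
  | e, b :: ρ => (e.child b).sub ρ

/-- The square root witness for a strict inequality with difference `d`. -/
noncomputable def rt (d : ℝ) : ℝ := if 0 < d then (Real.sqrt d)⁻¹ else Real.sqrt (-d)

noncomputable def Ex.aux (y : ℕ → ℝ) (e : Ex) (k : ℕ) : ℝ :=
  if k = 0 then e.val y else
  match e with
  | .eq s t =>
    if k = 1 then s.val y - t.val y
    else if k = 2 then (Ex.eq s t).val y * s.val y
    else if k = 3 then (s.val y - t.val y)⁻¹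
    else (s.val y - t.val y) * (s.val y - t.val y)⁻¹
  | .lt s t =>
    if k = 1 then t.val y - s.val y
    else if k = 2 then rt (t.val y - s.val y)
    else if k = 3 then rt (t.val y - s.val y) * rt (t.val y - s.val y)
    else if k = 4 then (t.val y - s.val y) * (rt (t.val y - s.val y) * rt (t.val y - s.val y))
    else (t.val y - s.val y) + rt (t.val y - s.val y) * rt (t.val y - s.val y)
  | .or s t => if k = 1 then s.val y * t.val y else s.val y + t.val y
  | _ => 0

theorem complete (y : ℕ → ℝ) (w : Nm → ℝ) (hy : ∀ n, w (n + 9, []) = y n) (e : Ex) :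
    ∀ π, (∀ k < 9, ∀ ρ : List Bool, w (k, ρ.reverse ++ π) = (e.sub ρ).aux y k) →
      ∀ c ∈ e.cons π, Sat w c := by
  have hch : ∀ (e : Ex) (π : List Bool) (b : Bool),
      (∀ k < 9, ∀ ρ : List Bool, w (k, ρ.reverse ++ π) = (e.sub ρ).aux y k) →
      (∀ k < 9, ∀ ρ : List Bool, w (k, ρ.reverse ++ b :: π) = ((e.child b).sub ρ).aux y k) := by
    intro e π b h k hk ρ
    have := h k hk (b :: ρ)
    simpa [Ex.sub] using this
  have h0 : ∀ (e : Ex) (π : List Bool),
      (∀ k < 9, ∀ ρ : List Bool, w (k, ρ.reverse ++ π) = (e.sub ρ).aux y k) →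
      (∀ k < 9, w (k, π) = e.aux y k) ∧ ∀ b, w (0, b :: π) = (e.child b).val y := by
    intro e π h
    refine ⟨fun k hk => by simpa [Ex.sub] using h k hk [], fun b => ?_⟩
    simpa [Ex.sub, Ex.aux] using h 0 (by omega) [b]
  induction e with
  | zero =>
    intro π h
    obtain ⟨a, _⟩ := h0 _ _ h
    simp [Ex.cons, consOf, a, Ex.aux, Ex.val]
  | one =>
    intro π h
    obtain ⟨a, _⟩ := h0 _ _ h
    simp [Ex.cons, consOf, a, Ex.aux, Ex.val]
  | var n =>
    intro π h
    obtain ⟨a, _⟩ := h0 _ _ h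
    simp [Ex.cons, consOf, a, Ex.aux, Ex.val, hy]
  | add s t ih1 ih2 =>
    intro π h
    obtain ⟨a, b⟩ := h0 _ _ h
    simp only [Ex.cons, List.mem_append, or_imp, forall_and]
    refine ⟨?_, ih1 _ (hch _ _ false h), ih2 _ (hch _ _ true h)⟩
    simp [consOf, a, b, Ex.aux, Ex.val, Ex.child]
  | mul s t ih1 ih2 =>
    intro π h
    obtain ⟨a, b⟩ := h0 _ _ h
    simp only [Ex.cons, List.mem_append, or_imp, forall_and]
    refine ⟨?_, ih1 _ (hch _ _ false h), ih2 _ (hch _ _ true h)⟩
    simp [consOf, a, b, Ex.aux, Ex.val, Ex.child]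
  | eq s t ih1 ih2 =>
    intro π h
    obtain ⟨a, b⟩ := h0 _ _ h
    simp only [Ex.cons, List.mem_append, or_imp, forall_and]
    refine ⟨?_, ih1 _ (hch _ _ false h), ih2 _ (hch _ _ true h)⟩
    by_cases hh : s.val y = t.val y
    · simp [consOf, a, b, Ex.aux, Ex.val, Ex.child, hh]
    · have : s.val y - t.val y ≠ 0 := sub_ne_zero.2 hh
      simp [consOf, a, b, Ex.aux, Ex.val, Ex.child, hh, this]
  | lt s t ih1 ih2 =>
    intro π h
    obtain ⟨a, b⟩ := h0 _ _ h
    simp only [Ex.cons, List.mem_append, or_imp, forall_and]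
    refine ⟨?_, ih1 _ (hch _ _ false h), ih2 _ (hch _ _ true h)⟩
    by_cases hh : s.val y < t.val y
    · have h1 : 0 < t.val y - s.val y := sub_pos.2 hh
      have h2 : (t.val y - s.val y) * (rt (t.val y - s.val y) * rt (t.val y - s.val y)) = 1 := by
        rw [rt, if_pos h1, ← mul_inv, Real.mul_self_sqrt h1.le, mul_inv_cancel₀ h1.ne']
      simp [consOf, a, b, Ex.aux, Ex.val, Ex.child, hh, h2]
    · have h1 : ¬ 0 < t.val y - s.val y := fun h => hh (sub_pos.1 h)
      have h2 : (t.val y - s.val y) + rt (t.val y - s.val y) * rt (t.val y - s.val y) = 0 := by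
        rw [rt, if_neg h1, Real.mul_self_sqrt (by linarith [not_lt.1 h1])]
        ring
      simp [consOf, a, b, Ex.aux, Ex.val, Ex.child, hh, h2]
  | not s ih =>
    intro π h
    obtain ⟨a, b⟩ := h0 _ _ h
    simp only [Ex.cons, List.mem_append, or_imp, forall_and]
    refine ⟨?_, ih _ (hch _ _ true h)⟩
    simp [consOf, a, b, Ex.aux, Ex.val, Ex.child]
  | and s t ih1 ih2 =>
    intro π h
    obtain ⟨a, b⟩ := h0 _ _ h
    simp only [Ex.cons, List.mem_append, or_imp, forall_and]
    refine ⟨?_, ih1 _ (hch _ _ false h), ih2 _ (hch _ _ true h)⟩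
    simp [consOf, a, b, Ex.aux, Ex.val, Ex.child]
  | or s t ih1 ih2 =>
    intro π h
    obtain ⟨a, b⟩ := h0 _ _ h
    simp only [Ex.cons, List.mem_append, or_imp, forall_and]
    refine ⟨?_, ih1 _ (hch _ _ false h), ih2 _ (hch _ _ true h)⟩
    simp [consOf, a, b, Ex.aux, Ex.val, Ex.child]

def Tm.toEx : Tm → Ex
  | .zero => .zero
  | .one => .one
  | .var n => .var n
  | .add s t => .add s.toEx t.toEx
  | .mul s t => .mul s.toEx t.toEx

def Fm.toEx : Fm → Ex
  | .eq s t => .eq s.toEx t.toEx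
  | .lt s t => .lt s.toEx t.toEx
  | .not φ => .not φ.toEx
  | .and φ ψ => .and φ.toEx ψ.toEx
  | .or φ ψ => .or φ.toEx ψ.toEx

theorem Tm.code_toEx (t : Tm) : t.toEx.code = t.code := by
  induction t <;> simp [Tm.toEx, Ex.code, Tm.code, *]

theorem Fm.code_toEx (φ : Fm) : φ.toEx.code = φ.code := by
  induction φ <;> simp [Fm.toEx, Ex.code, Fm.code, Tm.code_toEx, *]

theorem Tm.val_toEx (y : ℕ → ℝ) (t : Tm) : t.toEx.val y = t.eval y := by
  induction t <;> simp [Tm.toEx, Ex.val, Tm.eval, *]

open Classical in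
theorem Fm.val_toEx (y : ℕ → ℝ) (φ : Fm) : φ.toEx.val y = if φ.Holds y then 1 else 0 := by
  induction φ with
  | eq s t => simp [Fm.toEx, Ex.val, Fm.Holds, Tm.val_toEx]
  | lt s t => simp [Fm.toEx, Ex.val, Fm.Holds, Tm.val_toEx]
  | not φ ih => by_cases h : φ.Holds y <;> simp [Fm.toEx, Ex.val, Fm.Holds, ih, h]
  | and φ ψ ih1 ih2 =>
    by_cases h : φ.Holds y <;> by_cases h' : ψ.Holds y <;>
      simp [Fm.toEx, Ex.val, Fm.Holds, ih1, ih2, h, h']
  | or φ ψ ih1 ih2 =>
    by_cases h : φ.Holds y <;> by_cases h' : ψ.Holds y <;>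
      simp [Fm.toEx, Ex.val, Fm.Holds, ih1, ih2, h, h']

/-- The formula is satisfiable if and only if the system is. -/
theorem holds_iff (φ : Fm) : (∃ y, φ.Holds y) ↔ ∃ w : Nm → ℝ, ∀ c ∈ allCons φ.code, Sat w c := by
  rw [← φ.code_toEx, allCons_code]
  constructor
  · rintro ⟨y, hy⟩
    refine ⟨fun v => if v.1 < 9 then (φ.toEx.sub v.2.reverse).aux y v.1 else y (v.1 - 9), ?_⟩
    intro c hc
    rcases List.mem_cons.1 hc with rfl | hc
    · simp [Ex.sub, Ex.aux, Fm.val_toEx, hy]
    · refine complete y _ (fun n => by simp) φ.toEx [] (fun k hk ρ => by simp [hk]) c hc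
  · rintro ⟨w, hw⟩
    have h1 := hw _ List.mem_cons_self
    have h2 := sound w φ.toEx [] fun c hc => hw c (List.mem_cons_of_mem _ hc)
    refine ⟨fun n => w (n + 9, []), ?_⟩
    by_contra hcon
    rw [Fm.val_toEx, if_neg hcon] at h2
    simp [h2] at h1

end Pool.Agent.Lib.MP_3930bf_lc
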