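import Mathlib
import Pool.Prelude.Def_H_e9e0c647

namespace Pool.Agent.Lib.MP_3930bf_lc

/-- Polynomial terms built from `0, 1, +, *` and variables. -/
inductive Tm
  | zero : Tm
  | one : Tm
  | var : ℕ → Tm
  | add : Tm → Tm → Tm
  | mul : Tm → Tm → Tm

/-- Quantifier free formulas: Boolean combinations of equations and strict inequalities. -/
inductive Fm
  | eq : Tm → Tm → Fm
  | lt : Tm → Tm → Fm
  | not : Fm → Fm
  | and : Fm → Fm → Fm
  | or : Fm → Fm → Fm

/-- The value of a term at a real point. -/
def Tm.eval (y : ℕ → ℝ) : Tm → ℝ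
  | .zero => 0
  | .one => 1
  | .var n => y n
  | .add s t => s.eval y + t.eval y
  | .mul s t => s.eval y * t.eval y

/-- Truth of a formula at a real point. -/
def Fm.Holds (y : ℕ → ℝ) : Fm → Prop
  | .eq s t => s.eval y = t.eval y
  | .lt s t => s.eval y < t.eval y
  | .not φ => ¬ φ.Holds y
  | .and φ ψ => φ.Holds y ∧ ψ.Holds y
  | .or φ ψ => φ.Holds y ∨ ψ.Holds y

/-- Polish notation for terms; the symbols are numbers. -/
def Tm.code : Tm → List ℕ
  | .zero => [0]
  | .one => [1]
  | .var n => [n + 9]
  | .add s t => 2 :: (s.code ++ t.code)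
  | .mul s t => 3 :: (s.code ++ t.code)

/-- Polish notation for formulas. -/
def Fm.code : Fm → List ℕ
  | .eq s t => 4 :: (s.code ++ t.code)
  | .lt s t => 5 :: (s.code ++ t.code)
  | .not φ => 6 :: φ.code
  | .and φ ψ => 7 :: (φ.code ++ ψ.code)
  | .or φ ψ => 8 :: (φ.code ++ ψ.code)

/-- The bit string of a formula: its list of symbols, each in binary. -/
def encFm (φ : Fm) : List Bool := N487b59b3.bitEncode φ.code

/-- An input of the gap problem: a square matrix whose entries are rational constants or
variables (numbered by naturals), and an integer `r`. -/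
structure Inst where
  size : ℕ
  entry : Fin size → Fin size → ℚ ⊕ ℕ
  r : ℕ

/-- The minimum rank over all real values of the variables. -/
noncomputable def Inst.mr (I : Inst) : ℕ :=
  sInf {k : ℕ | ∃ a : ℕ → ℝ,
    (Matrix.of fun i j => Sum.elim (fun q : ℚ => (q : ℝ)) a (I.entry i j)).rank = k}

/-- A constant `q` is written `(false, q, 0)` and the variable number `n` is `(true, 0, n)`. -/
def entryCode : ℚ ⊕ ℕ → Bool × ℚ × ℕ
  | .inl q => (false, q, 0)
  | .inr n => (true, 0, n)

/-- The bit string of an input: `r` and the list of rows, all numbers in binary. -/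
def encInst (I : Inst) : List Bool :=
  N487b59b3.bitEncode (I.r, List.ofFn fun i => List.ofFn fun j => entryCode (I.entry i j))

end Pool.Agent.Lib.MP_3930bf_lc
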