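import Mathlib

/-! Independent representations of the Kneser graph of pairs have almost full dimension. -/

namespace Pool.Agent.Lib.MP_3930bf_lc

namespace K91

open Module Submodule

variable {V : Type} [AddCommGroup V] [Module ℝ V] [FiniteDimensional ℝ V]

theorem biorth {ι : Type} [DecidableEq ι] (w : ι → V) (b : ι → V →ₗ[ℝ] ℝ) (W : Submodule ℝ V)
    (S : Finset ι) : ∀ U : Submodule ℝ V, U ≤ W → (∀ u ∈ S, w u ∈ W) →
      (∀ u ∈ S, ∀ x ∈ U, b u x = 0) → (∀ u ∈ S, b u (w u) ≠ 0) →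
      (∀ u ∈ S, ∀ v ∈ S, u ≠ v → b u (w v) = 0) → finrank ℝ U + S.card ≤ finrank ℝ W := by
  induction S using Finset.induction_on with
  | empty => intro U hUW _ _ _ _; simpa using Submodule.finrank_mono hUW
  | insert u S hu ih =>
    intro U hUW hw hU h1 h0
    have m : ∀ v ∈ S, v ∈ insert u S := fun v hv => Finset.mem_insert_of_mem hv
    have mu : u ∈ insert u S := Finset.mem_insert_self _ _
    have h2 := ih (U ⊔ span ℝ {w u})
      (sup_le hUW ((span_singleton_le_iff_mem _ _).2 (hw u mu))) (fun v hv => hw v (m v hv))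
      (fun v hv x hx => by
        have : U ⊔ span ℝ {w u} ≤ LinearMap.ker (b v) :=
          sup_le (fun y hy => hU v (m v hv) y hy) ((span_singleton_le_iff_mem _ _).2
            (h0 v (m v hv) u mu fun e => hu (e ▸ hv)))
        exact this hx)
      (fun v hv => h1 v (m v hv)) (fun v hv v' hv' => h0 v (m v hv) v' (m v' hv'))
    have h3 : U < U ⊔ span ℝ {w u} := by
      refine lt_of_le_of_ne le_sup_left fun e => h1 u mu (hU u mu _ ?_)
      rw [e]
      exact mem_sup_right (mem_span_singleton_self _)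
    have h4 := Submodule.finrank_lt_finrank_of_lt h3
    rw [Finset.card_insert_of_notMem hu]
    omega

/-- The span of the vectors of the pairs inside `S`. -/
def sp (a : ℕ → ℕ → V) (S : Finset ℕ) : Submodule ℝ V :=
  span ℝ {x | ∃ k ∈ S, ∃ l ∈ S, k ≠ l ∧ x = a k l}

omit [FiniteDimensional ℝ V] in
theorem sp_mem (a : ℕ → ℕ → V) {S : Finset ℕ} {k l : ℕ} (hk : k ∈ S) (hl : l ∈ S) (h : k ≠ l) :
    a k l ∈ sp a S := subset_span ⟨k, hk, l, hl, h, rfl⟩

omit [FiniteDimensional ℝ V] in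
theorem sp_le (a : ℕ → ℕ → V) {S : Finset ℕ} {W : Submodule ℝ V}
    (h : ∀ k ∈ S, ∀ l ∈ S, k ≠ l → a k l ∈ W) : sp a S ≤ W :=
  span_le.2 (by rintro _ ⟨k, hk, l, hl, hne, rfl⟩; exact h k hk l hl hne)

omit [FiniteDimensional ℝ V] in
theorem sp_mono (a : ℕ → ℕ → V) {S T : Finset ℕ} (h : S ⊆ T) : sp a S ≤ sp a T :=
  sp_le a fun _ hk _ hl hne => sp_mem a (h hk) (h hl) hne

/-- The vector of a pair is seen by its functional, which kills `U` and all disjoint pairs. -/
structure Rep (a : ℕ → ℕ → V) (b : ℕ → ℕ → V →ₗ[ℝ] ℝ) (T : Finset ℕ) (U : Submodule ℝ V) :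
    Prop where
  diag : ∀ k ∈ T, ∀ l ∈ T, k ≠ l → b k l (a k l) ≠ 0
  off : ∀ k ∈ T, ∀ l ∈ T, ∀ k' ∈ T, ∀ l' ∈ T, k ≠ l → k' ≠ l' → k ≠ k' → k ≠ l' → l ≠ k' →
    l ≠ l' → b k' l' (a k l) = 0
  base : ∀ k ∈ T, ∀ l ∈ T, k ≠ l → ∀ x ∈ U, b k l x = 0

variable {a : ℕ → ℕ → V} {b : ℕ → ℕ → V →ₗ[ℝ] ℝ}

theorem grow {T : Finset ℕ} {U : Submodule ℝ V} (h : Rep a b T U) :
    ∀ s, 2 * s ≤ T.card + 1 →
      ∃ S ⊆ T, S.card = s ∧ finrank ℝ U + s ≤ finrank ℝ ↥(U ⊔ sp a S) + 1 := by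
  intro s
  induction s with
  | zero =>
    intro _
    refine ⟨∅, Finset.empty_subset _, rfl, ?_⟩
    have := Submodule.finrank_mono (le_sup_left : U ≤ U ⊔ sp a ∅)
    omega
  | succ s ih =>
    intro hs
    obtain ⟨S, hST, hc, hr⟩ := ih (by omega)
    have hc' : (T \ S).card = T.card - s := by rw [Finset.card_sdiff_of_subset hST, hc]
    have key : ∀ v ∈ T \ S, finrank ℝ U + s ≤ finrank ℝ ↥(U ⊔ sp a (insert v S)) →
        ∃ S ⊆ T, S.card = s + 1 ∧ finrank ℝ U + (s + 1) ≤ finrank ℝ ↥(U ⊔ sp a S) + 1 := by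
      intro v hv hle
      rw [Finset.mem_sdiff] at hv
      exact ⟨insert v S, Finset.insert_subset hv.1 hST,
        by rw [Finset.card_insert_of_notMem hv.2, hc], by omega⟩
    have mono : ∀ v, U ⊔ sp a S ≤ U ⊔ sp a (insert v S) := fun v =>
      sup_le_sup_left (sp_mono a (Finset.subset_insert _ _)) _
    by_cases hex : ∃ v ∈ T \ S, ¬ sp a (insert v S) ≤ U ⊔ sp a S
    · obtain ⟨v, hv, hn⟩ := hex
      refine key v hv ?_
      have h3 : U ⊔ sp a S < U ⊔ sp a (insert v S) :=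
        lt_of_le_of_ne (mono v) fun e => hn (e ▸ le_sup_right)
      have := Submodule.finrank_lt_finrank_of_lt h3
      omega
    · push Not at hex
      obtain ⟨v, hv⟩ : (T \ S).Nonempty := Finset.card_pos.1 (by omega)
      refine key v hv (le_trans ?_ (Submodule.finrank_mono (mono v)))
      obtain ⟨φ, hφ0, hinj⟩ := S.finite_toSet.exists_injOn_of_encard_le
        (t := ((T \ S : Finset ℕ) : Set ℕ)) (by
        rw [Set.encard_coe_eq_coe_finsetCard, Set.encard_coe_eq_coe_finsetCard]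
        exact Nat.cast_le.2 (by omega))
      have hφ : ∀ {u}, u ∈ S → φ u ∈ T \ S := fun hu => hφ0 hu
      have hφ' : ∀ u ∈ S, φ u ∈ T ∧ φ u ∉ S := fun u hu => Finset.mem_sdiff.1 (hφ hu)
      have hne : ∀ u ∈ S, ∀ u' ∈ S, u ≠ φ u' := fun u hu u' hu' e => (hφ' u' hu').2 (e ▸ hu)
      rw [← hc]
      refine biorth (fun u => a u (φ u)) (fun u => b u (φ u)) _ S U le_sup_left
        (fun u hu => hex _ (hφ hu) (sp_mem a (Finset.mem_insert_of_mem hu)
          (Finset.mem_insert_self _ _) (hne u hu u hu)))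
        (fun u hu => h.base u (hST hu) _ (hφ' u hu).1 (hne u hu u hu))
        (fun u hu => h.diag u (hST hu) _ (hφ' u hu).1 (hne u hu u hu)) fun u hu u' hu' hd => ?_
      exact h.off u' (hST hu') _ (hφ' u' hu').1 u (hST hu) _ (hφ' u hu).1 (hne u' hu' u' hu')
        (hne u hu u hu) hd.symm (hne u' hu' u hu) (hne u hu u' hu').symm
        fun e => hd (hinj hu' hu e).symm

theorem kneser : ∀ (t : ℕ) (T : Finset ℕ) (U : Submodule ℝ V), T.card ≤ 2 ^ t → Rep a b T U →
    finrank ℝ U + T.card ≤ finrank ℝ ↥(U ⊔ sp a T) + t + 1 := by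
  intro t
  induction t with
  | zero =>
    intro T U hT _
    have := Submodule.finrank_mono (le_sup_left : U ≤ U ⊔ sp a T)
    omega
  | succ t ih =>
    intro T U hT h
    obtain ⟨S, hST, hc, hr⟩ := grow h ((T.card + 1) / 2) (by omega)
    have hc' : (T \ S).card = T.card - S.card := Finset.card_sdiff_of_subset hST
    have m : ∀ k ∈ T \ S, k ∈ T := fun k hk => (Finset.mem_sdiff.1 hk).1
    have d : ∀ u ∈ S, ∀ k ∈ T \ S, u ≠ k := fun u hu k hk e =>
      (Finset.mem_sdiff.1 hk).2 (e ▸ hu)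
    have h2 := ih (T \ S) (U ⊔ sp a S) (by rw [pow_succ] at hT; omega)
      ⟨fun k hk l hl => h.diag k (m k hk) l (m l hl),
        fun k hk l hl k' hk' l' hl' => h.off k (m k hk) l (m l hl) k' (m k' hk') l' (m l' hl'),
        fun k hk l hl hne x hx => by
          have : U ⊔ sp a S ≤ LinearMap.ker (b k l) :=
            sup_le (fun y hy => h.base k (m k hk) l (m l hl) hne y hy)
              (sp_le a fun u hu u' hu' hd => h.off u (hST hu) u' (hST hu') k (m k hk) l (m l hl)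
                hd hne (d u hu k hk) (d u hu l hl) (d u' hu' k hk) (d u' hu' l hl))
          exact this hx⟩
    have h3 : U ⊔ sp a S ⊔ sp a (T \ S) ≤ U ⊔ sp a T :=
      sup_le (sup_le_sup_left (sp_mono a hST) _)
        (le_sup_of_le_right (sp_mono a Finset.sdiff_subset))
    have h4 := Submodule.finrank_mono h3
    omega

end K91

end Pool.Agent.Lib.MP_3930bf_lc
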