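import Pool.Agent.Lib.MP_3930bf_lc.Cons

/-! From the system of equations to a variable matrix. -/

namespace Pool.Agent.Lib.MP_3930bf_lc

open Pool.Agent.Lib.helper82

def addTab : List (List ℕ) :=
  [[1, 0, 2, 0, 0, 0, 2, 0, 0], [0, 1, 3, 0, 0, 0, 0, 2, 0], [1, 1, 4, 0, 0, 0, 2, 2, 0],
   [0, 0, 0, 1, 0, 2, 3, 0, 0], [0, 0, 0, 0, 1, 3, 0, 3, 0], [0, 0, 0, 1, 1, 4, 3, 3, 0],
   [1, 0, 2, 1, 0, 2, 4, 0, 0], [0, 1, 3, 0, 1, 3, 0, 4, 0], [1, 1, 4, 1, 1, 4, 4, 4, 0]]

def mulTab : List (List ℕ) :=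
  [[1, 0, 0, 0, 2, 0, 0, 0, 0], [0, 1, 0, 0, 0, 2, 0, 0, 0], [0, 0, 1, 0, 0, 0, 2, 0, 0],
   [0, 0, 0, 1, 0, 0, 0, 2, 0], [3, 0, 0, 0, 4, 0, 0, 0, 0], [0, 3, 0, 0, 0, 4, 0, 0, 0],
   [0, 0, 3, 0, 0, 0, 4, 0, 0], [0, 0, 0, 3, 0, 0, 0, 4, 0], [0, 0, 0, 0, 0, 0, 0, 0, 0]]

def sel (b : Bool) (i j : ℕ) : ℕ :=
  if i < 9 ∧ j < 9 then ((bif b then mulTab else addTab).getD i []).getD j 0 else 0

abbrev E := ℚ ⊕ ℕ

instance : Enc E := N487b59b3.ofLeftInverse entryCode
  (fun p => some (bif p.1 then .inr p.2.2 else .inl p.2.1)) (by rintro (q | n) <;> rfl)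

theorem enc_E (e : E) : enc e = enc (entryCode e) := rfl

def conv (x : Atom) : E := bif x.1 then .inl 1 else .inr (tag false x.2)

def pick (c : Con) (s : ℕ) : E :=
  if s = 1 then .inl 1 else if s = 2 then conv c.2.1 else if s = 3 then conv c.2.2.1
  else if s = 4 then conv c.2.2.2 else .inl 0

instance decAtom : DecidableEq Atom := instDecidableEqProd
instance decAtom2 : DecidableEq (Atom × Atom) := instDecidableEqProd
instance decAtom3 : DecidableEq (Atom × Atom × Atom) := instDecidableEqProd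
instance decCon : DecidableEq Con := instDecidableEqProd

abbrev Idx := Con × ℕ × ℕ

def entry (p q : Idx) : E :=
  if p.1 = q.1 then (if p.2.2 = q.2.2 then pick p.1 (sel p.1.1 p.2.1 q.2.1) else .inl 0)
  else .inr (tag true (p, q))

def rows (k : ℕ) (ts : List ℕ) : List Idx :=
  (allCons ts).flatMap fun c => ((List.range 9).product (List.range k)).map fun j => (c, j)

def inst (k : ℕ) (ts : List ℕ) : Inst :=
  ⟨(rows k ts).length, fun i j => entry (rows k ts)[i] (rows k ts)[j], 4 * k⟩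

/-! ### Polynomial time -/

theorem inr_pt {α : Type} [Enc α] {F : α → ℕ} (hF : PT F) : PT fun a => (Sum.inr (F a) : E) :=
  PT.pair (PT.const true) (PT.pair (PT.const (0 : ℚ)) hF)

theorem conv_pt : PT conv :=
  PT.cond PT.fst' (PT.const _) (inr_pt (PT.tag false PT.snd'))

theorem pick_pt : PT fun p : Con × ℕ => pick p.1 p.2 := by
  unfold pick
  refine PT.iteEq PT.snd' (PT.const 1) (PT.const _) ?_
  refine PT.iteEq PT.snd' (PT.const 2) (PT.comp conv_pt (PT.fst (PT.snd PT.fst'))) ?_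
  refine PT.iteEq PT.snd' (PT.const 3) (PT.comp conv_pt (PT.fst (PT.snd (PT.snd PT.fst')))) ?_
  exact PT.iteEq PT.snd' (PT.const 4) (PT.comp conv_pt (PT.snd (PT.snd (PT.snd PT.fst'))))
    (PT.const _)

theorem sel_pt : PT fun p : Bool × ℕ × ℕ => sel p.1 p.2.1 p.2.2 := by
  refine PT.ofFinite 0 ([true, false].product ((List.range 9).product (List.range 9))) _ ?_
  rintro ⟨b, i, j⟩ h
  have : ¬ (i < 9 ∧ j < 9) := fun h' => h (by cases b <;> simp [h'.1, h'.2])
  simp [sel, this]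

theorem entry_pt : PT fun p : Idx × Idx => entry p.1 p.2 := by
  unfold entry
  refine PT.iteEq (PT.fst PT.fst') (PT.fst PT.snd') ?_ (inr_pt (PT.tag true PT.id))
  refine PT.iteEq (PT.snd (PT.snd PT.fst')) (PT.snd (PT.snd PT.snd')) ?_ (PT.const _)
  exact PT.comp₂ pick_pt (PT.fst PT.fst') (PT.comp sel_pt (PT.pair (PT.fst (PT.fst PT.fst'))
    (PT.pair (PT.fst (PT.snd PT.fst')) (PT.fst (PT.snd PT.snd')))))

theorem rows_pt (k : ℕ) : PT (rows k) :=
  PT.flatMap (F := fun _ (c : Con) => ((List.range 9).product (List.range k)).map fun j => (c, j))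
    allCons_pt (PT.map (F := fun (p : List ℕ × Con) (j : ℕ × ℕ) => ((p.2, j) : Idx))
      (PT.const _) (PT.pair (PT.snd PT.fst') PT.snd'))

def table (k : ℕ) (ts : List ℕ) : ℕ × List (List (Bool × ℚ × ℕ)) :=
  (4 * k, (rows k ts).map fun p => (rows k ts).map fun q => entryCode (entry p q))

theorem table_pt (k : ℕ) : PT (table k) := by
  have h0 : PT entryCode := PTR.id
  refine PT.pair (PT.const _) (PT.map (F := fun (ts : List ℕ) (p : Idx) =>
    (rows k ts).map fun q => entryCode (entry p q)) (rows_pt k) ?_)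
  exact PT.map (F := fun (a : List ℕ × Idx) (q : Idx) => entryCode (entry a.2 q))
    (PT.comp (rows_pt k) PT.fst') (PT.comp h0 (PT.comp entry_pt (PT.pair (PT.snd PT.fst') PT.snd')))

theorem encInst_inst (k : ℕ) (ts : List ℕ) : encInst (inst k ts) = enc (table k ts) := by
  unfold encInst table
  congr 2
  simp only [inst]
  have h1 : ∀ p : Idx, (List.ofFn fun j : Fin (rows k ts).length =>
      entryCode (entry p (rows k ts)[j])) = (rows k ts).map fun q => entryCode (entry p q) :=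
    fun p => List.ofFn_getElem_eq_map _ fun q => entryCode (entry p q)
  simp only [Fin.getElem_fin] at h1 ⊢
  simp only [h1]
  exact List.ofFn_getElem_eq_map _ fun p => (rows k ts).map fun q => entryCode (entry p q)

theorem inst_tm2 (k : ℕ) :
    Nonempty (Turing.TM2ComputableInPolyTime encFm encInst fun φ => inst k φ.code) := by
  have h : PTR encFm fun φ : Fm => enc (table k φ.code) :=
    PTR.comp (F := Fm.code) (table_pt k) PTR.id
  exact PTR.toTM2 (h.congr fun φ => (encInst_inst k φ.code).symm)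

/-! ### Ranks -/

def gval (x y z : ℝ) (s : ℕ) : ℝ :=
  if s = 1 then 1 else if s = 2 then x else if s = 3 then y else if s = 4 then z else 0

def uTab (b : Bool) (y : ℝ) : List (List ℝ) :=
  bif b then [[1, 0, 0, 0], [0, 1, 0, 0], [0, 0, 1, 0], [0, 0, 0, 1], [y, 0, 0, 0], [0, y, 0, 0],
    [0, 0, y, 0], [0, 0, 0, y], [0, 0, 0, 0]]
  else [[1, 0, 0, 0], [0, 1, 0, 0], [1, 1, 0, 0], [0, 0, 1, 0], [0, 0, 0, 1], [0, 0, 1, 1],
    [1, 0, 1, 0], [0, 1, 0, 1], [1, 1, 1, 1]]

def vTab (b : Bool) (x y : ℝ) : List (List ℝ) :=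
  bif b then [[1, 0, 0, 0], [0, 1, 0, 0], [0, 0, 1, 0], [0, 0, 0, 1], [x, 0, 0, 0], [0, x, 0, 0],
    [0, 0, x, 0], [0, 0, 0, x], [0, 0, 0, 0]]
  else [[1, 0, 0, 0], [0, 1, 0, 0], [x, y, 0, 0], [0, 0, 1, 0], [0, 0, 0, 1], [0, 0, x, y],
    [x, 0, y, 0], [0, x, 0, y], [0, 0, 0, 0]]

def uG (b : Bool) (y : ℝ) (i : ℕ) (t : Fin 4) : ℝ := ((uTab b y).getD i []).getD t 0
def vG (b : Bool) (x y : ℝ) (j : ℕ) (t : Fin 4) : ℝ := ((vTab b x y).getD j []).getD t 0

theorem factor_mul (x y : ℝ) (i j : ℕ) (hi : i < 9) (hj : j < 9) :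
    ∑ t, uG true y i t * vG true x y j t = gval x y (y * x) (sel true i j) := by
  interval_cases i <;> interval_cases j <;>
    simp [Fin.sum_univ_four, uG, vG, uTab, vTab, gval, sel, mulTab]

theorem factor_add (x y : ℝ) (i j : ℕ) (hi : i < 9) (hj : j < 9) :
    ∑ t, uG false y i t * vG false x y j t = gval x y (x + y) (sel false i j) := by
  interval_cases i <;> interval_cases j <;>
    simp [Fin.sum_univ_four, uG, vG, uTab, vTab, gval, sel, addTab]

theorem inj_mul (x y z : ℝ) (h : x * y ≠ z) (v : Fin 8 → ℝ)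
    (hv : ∀ i : Fin 9, ∑ j : Fin 8, gval x y z (sel true i j) * v j = 0) : v = 0 := by
  have h0 := hv 0; have h1 := hv 1; have h2 := hv 2; have h3 := hv 3
  have h4 := hv 4; have h5 := hv 5; have h6 := hv 6; have h7 := hv 7
  simp [Fin.sum_univ_eight, gval, sel, mulTab] at h0 h1 h2 h3 h4 h5 h6 h7
  have hd : z - x * y ≠ 0 := sub_ne_zero.2 (Ne.symm h)
  have a4 : v 4 = 0 := (mul_eq_zero.1 (show (z - x * y) * v 4 = 0 by
    linear_combination h4 - y * h0)).resolve_left hd
  have a5 : v 5 = 0 := (mul_eq_zero.1 (show (z - x * y) * v 5 = 0 by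
    linear_combination h5 - y * h1)).resolve_left hd
  have a6 : v 6 = 0 := (mul_eq_zero.1 (show (z - x * y) * v 6 = 0 by
    linear_combination h6 - y * h2)).resolve_left hd
  have a7 : v 7 = 0 := (mul_eq_zero.1 (show (z - x * y) * v 7 = 0 by
    linear_combination h7 - y * h3)).resolve_left hd
  have a0 : v 0 = 0 := by linear_combination h0 - x * a4
  have a1 : v 1 = 0 := by linear_combination h1 - x * a5
  have a2 : v 2 = 0 := by linear_combination h2 - x * a6
  have a3 : v 3 = 0 := by linear_combination h3 - x * a7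
  funext j
  fin_cases j <;> simp [*]

theorem inj_add (x y z : ℝ) (h : x + y ≠ z) (v : Fin 8 → ℝ)
    (hv : ∀ i : Fin 9, ∑ j : Fin 8, gval x y z (sel false i j) * v j = 0) : v = 0 := by
  have h0 := hv 0; have h1 := hv 1; have h2 := hv 2; have h3 := hv 3
  have h4 := hv 4; have h5 := hv 5; have h6 := hv 6; have h7 := hv 7
  simp [Fin.sum_univ_eight, gval, sel, addTab] at h0 h1 h2 h3 h4 h5 h6 h7
  have hd : z - (x + y) ≠ 0 := sub_ne_zero.2 (Ne.symm h)
  have a2 : v 2 = 0 := (mul_eq_zero.1 (show (z - (x + y)) * v 2 = 0 by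
    linear_combination h2 - h0 - h1)).resolve_left hd
  have a5 : v 5 = 0 := (mul_eq_zero.1 (show (z - (x + y)) * v 5 = 0 by
    linear_combination h5 - h3 - h4)).resolve_left hd
  have a6 : v 6 = 0 := (mul_eq_zero.1 (show (z - (x + y)) * v 6 = 0 by
    linear_combination h6 - h0 - h3)).resolve_left hd
  have a7 : v 7 = 0 := (mul_eq_zero.1 (show (z - (x + y)) * v 7 = 0 by
    linear_combination h7 - h1 - h4)).resolve_left hd
  have a0 : v 0 = 0 := by linear_combination h0 - x * a2 - x * a6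
  have a1 : v 1 = 0 := by linear_combination h1 - y * a2 - x * a7
  have a3 : v 3 = 0 := by linear_combination h3 - x * a5 - y * a6
  have a4 : v 4 = 0 := by linear_combination h4 - y * a5 - y * a7
  funext j
  fin_cases j <;> simp [*]

theorem rank_ge {m n ι κ : Type} [Fintype n] [Fintype κ] (M : Matrix m n ℝ) (f : ι → m)
    (g : κ → n) (h : ∀ v : κ → ℝ, (∀ i, ∑ j, M (f i) (g j) * v j = 0) → v = 0) :
    Fintype.card κ ≤ M.rank := by
  refine le_trans ?_ (Matrix.rank_submatrix_le M f g)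
  have hinj : Function.Injective (M.submatrix f g).mulVecLin := by
    rw [injective_iff_map_eq_zero]
    intro v hv
    exact h v fun i => congrFun hv i
  rw [Matrix.rank, LinearMap.finrank_range_of_inj hinj]
  simp

abbrev evE (a : ℕ → ℝ) : E → ℝ := Sum.elim (fun q : ℚ => (q : ℝ)) a

theorem evE_conv (a : ℕ → ℝ) (x : Atom) : evE a (conv x) = ev (fun v => a (tag false v)) x := by
  rcases x with ⟨_ | _, v⟩ <;> simp [conv, ev]

theorem evE_pick (a : ℕ → ℝ) (c : Con) (s : ℕ) :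
    evE a (pick c s) = gval (ev (fun v => a (tag false v)) c.2.1)
      (ev (fun v => a (tag false v)) c.2.2.1) (ev (fun v => a (tag false v)) c.2.2.2) s := by
  unfold pick gval
  split_ifs <;> simp [evE_conv]

theorem mem_rows {k : ℕ} {ts : List ℕ} {p : Idx} :
    p ∈ rows k ts ↔ p.1 ∈ allCons ts ∧ p.2.1 < 9 ∧ p.2.2 < k := by
  obtain ⟨c, i, s⟩ := p
  simp [rows]

abbrev mat (k : ℕ) (ts : List ℕ) (a : ℕ → ℝ) :
    Matrix (Fin (inst k ts).size) (Fin (inst k ts).size) ℝ :=
  Matrix.of fun i j => evE a ((inst k ts).entry i j)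

theorem rank_no (k : ℕ) (ts : List ℕ) (a : ℕ → ℝ) (c : Con) (hc : c ∈ allCons ts)
    (hn : ¬ Sat (fun v => a (tag false v)) c) : 8 * k ≤ (mat k ts a).rank := by
  have h1 : ∀ i : Fin 9 × Fin k, ∃ n : Fin (rows k ts).length,
      (rows k ts)[n] = (c, (i.1 : ℕ), (i.2 : ℕ)) := fun i =>
    List.get_of_mem (mem_rows.2 ⟨hc, i.1.2, i.2.2⟩)
  choose f hf using h1
  have h2 := rank_ge (mat k ts a) f (fun j : Fin 8 × Fin k => f (j.1.castSucc, j.2)) ?_
  · simpa using h2
  intro v hv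
  have h3 : ∀ (s : Fin k) (i : Fin 9), ∑ j : Fin 8, gval (ev (fun v => a (tag false v)) c.2.1)
      (ev (fun v => a (tag false v)) c.2.2.1) (ev (fun v => a (tag false v)) c.2.2.2)
        (sel c.1 i j) * v (j, s) = 0 := by
    intro s i
    have := hv (i, s)
    have hm : ∀ p q, mat k ts a (f p) (f q) =
        evE a (entry (c, (p.1 : ℕ), (p.2 : ℕ)) (c, (q.1 : ℕ), (q.2 : ℕ))) := by
      intro p q
      rw [← hf p, ← hf q]
      rfl
    simp only [hm, entry, if_true, Fintype.sum_prod_type] at this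
    rw [← this]
    refine Finset.sum_congr rfl fun j _ => ?_
    rw [Finset.sum_eq_single s]
    · simp [evE_pick]
    · intro s' _ hs'
      have : (s : ℕ) ≠ s' := fun h => hs' (Fin.ext h.symm)
      simp [this]
    · simp
  funext ⟨j, s⟩
  obtain ⟨_ | _, x, y, z⟩ := c
  · exact congrFun (inj_add _ _ _ hn (fun j => v (j, s)) (h3 s)) j
  · exact congrFun (inj_mul _ _ _ hn (fun j => v (j, s)) (h3 s)) j

noncomputable def uVec (k : ℕ) (w : Nm → ℝ) (p : Idx) (t : Fin 4 × Fin k) : ℝ :=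
  if p.2.2 = t.2 then uG p.1.1 (ev w p.1.2.2.1) p.2.1 t.1 else 0

noncomputable def vVec (k : ℕ) (w : Nm → ℝ) (p : Idx) (t : Fin 4 × Fin k) : ℝ :=
  if p.2.2 = t.2 then vG p.1.1 (ev w p.1.2.1) (ev w p.1.2.2.1) p.2.1 t.1 else 0

theorem rank_yes (k : ℕ) (ts : List ℕ) (w : Nm → ℝ) (hw : ∀ c ∈ allCons ts, Sat w c) :
    ∃ a : ℕ → ℝ, (mat k ts a).rank ≤ 4 * k := by
  let u : Idx × Idx → ℝ := fun pq => ∑ t, uVec k w pq.1 t * vVec k w pq.2 t
  let a : ℕ → ℝ := Function.extend (tag false) w (Function.extend (tag true) u 0)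
  have ha0 : (fun v : Nm => a (tag false v)) = w := funext fun v =>
    (tag_injective false).extend_apply _ _ v
  have ha1 : ∀ pq : Idx × Idx, a (tag true pq) = u pq := fun pq => by
    simp only [a]
    rw [Function.extend_apply' _ _ _ (by rintro ⟨v, hv⟩; exact tag_ne v pq hv),
      (tag_injective true).extend_apply]
  have key : ∀ p ∈ rows k ts, ∀ q ∈ rows k ts, evE a (entry p q) = u (p, q) := by
    rintro ⟨c, i, s⟩ hp ⟨c', j, s'⟩ hq
    obtain ⟨hc, hi, hs⟩ := mem_rows.1 hp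
    obtain ⟨-, hj, hs'⟩ := mem_rows.1 hq
    simp only at hc hi hs hj hs'
    unfold entry
    by_cases h1 : c = c'
    · subst h1
      simp only [if_true, u, uVec, vVec, Fintype.sum_prod_type]
      by_cases h2 : s = s'
      · subst h2
        simp only [if_true, evE_pick, ha0]
        have h3 : ∀ t : Fin 4, (∑ s' : Fin k,
            (if s = s' then uG c.1 (ev w c.2.2.1) i t else 0) *
            (if s = s' then vG c.1 (ev w c.2.1) (ev w c.2.2.1) j t else 0)) =
            uG c.1 (ev w c.2.2.1) i t * vG c.1 (ev w c.2.1) (ev w c.2.2.1) j t := by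
          intro t
          rw [Finset.sum_eq_single ⟨s, hs⟩]
          · simp
          · intro s' _ hs'
            have : s ≠ s' := fun h => hs' (Fin.ext h.symm)
            simp [this]
          · simp
        simp only [h3]
        have h4 := hw c hc
        obtain ⟨_ | _, x, y, z⟩ := c
        · rw [factor_add _ _ i j hi hj, show ev w x + ev w y = ev w z from h4]
        · rw [factor_mul _ _ i j hi hj, mul_comm, show ev w x * ev w y = ev w z from h4]
      · simp only [h2, if_false]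
        symm
        refine (Finset.sum_eq_zero fun t _ => Finset.sum_eq_zero fun r _ => ?_).trans (by simp)
        by_cases h3 : s = r
        · have : ¬ s' = r := fun h => h2 (h3.trans h.symm)
          simp [this]
        · simp [h3]
    · simp only [h1, if_false]
      exact ha1 _
  refine ⟨a, ?_⟩
  have e : mat k ts a = (Matrix.of fun (i : Fin (rows k ts).length) t => uVec k w (rows k ts)[i] t) *
      (Matrix.of fun t (j : Fin (rows k ts).length) => vVec k w (rows k ts)[j] t) := by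
    ext i j
    exact key _ (List.getElem_mem _) _ (List.getElem_mem _)
  rw [e]
  refine (Matrix.rank_mul_le_left _ _).trans ((Matrix.rank_le_card_width _).trans ?_)
  simp

theorem main (k : ℕ) :
    ∃ f : Fm → Inst, Nonempty (Turing.TM2ComputableInPolyTime encFm encInst f) ∧
      ∀ φ : Fm, (f φ).r = 4 * k ∧ ((∃ y, φ.Holds y) → (f φ).mr ≤ 4 * k) ∧
        ((¬ ∃ y, φ.Holds y) → 8 * k ≤ (f φ).mr) := by
  refine ⟨fun φ => inst k φ.code, inst_tm2 k, fun φ => ⟨rfl, fun h => ?_, fun h => ?_⟩⟩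
  · obtain ⟨w, hw⟩ := (holds_iff φ).1 h
    obtain ⟨a, ha⟩ := rank_yes k φ.code w hw
    exact (Nat.sInf_le (s := {r : ℕ | ∃ a : ℕ → ℝ, (mat k φ.code a).rank = r}) ⟨a, rfl⟩).trans ha
  · obtain ⟨a, ha⟩ := Nat.sInf_mem (s := {r : ℕ | ∃ a : ℕ → ℝ, (mat k φ.code a).rank = r})
      ⟨_, 0, rfl⟩
    refine le_trans ?_ ha.le
    rw [holds_iff] at h
    push Not at h
    obtain ⟨c, hc, hn⟩ := h fun v => a (tag false v)
    exact rank_no k φ.code a c hc hn

end Pool.Agent.Lib.MP_3930bf_lc
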