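import Pool.Agent.Lib.MP_3930bf_lc.Mat
import Pool.Agent.Lib.MP_dec383_lc.UN

/-! A two by two block matrix of Toeplitz blocks: half rank against almost full rank. -/

namespace Pool.Agent.Lib.MP_3930bf_lc

namespace T91

open Pool.Agent.Lib.helper82 Pool.Agent.Lib.MP_dec383_lc Finset

/-! ### Lower triangular Toeplitz matrices -/

def tp (s : ℕ → ℝ) (i j : ℕ) : ℝ := if j ≤ i then s (i - j) else 0

def cnv (b a : ℕ → ℝ) (k : ℕ) : ℝ := ∑ v ∈ range (k + 1), b (k - v) * a v

def dl (k : ℕ) : ℝ := if k = 0 then 1 else 0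

theorem tp_mul (b a : ℕ → ℝ) {p i : ℕ} (hi : i < p) (j : ℕ) :
    ∑ t : Fin p, tp b i t * tp a t j = tp (cnv b a) i j := by
  rw [Fin.sum_univ_eq_sum_range (fun t => tp b i t * tp a t j) p]
  have h1 : ∑ t ∈ range p, tp b i t * tp a t j = ∑ t ∈ Ico j (i + 1), tp b i t * tp a t j := by
    symm
    refine sum_subset (fun t ht => ?_) fun t _ ht => ?_
    · rw [mem_Ico] at ht; exact mem_range.2 (by omega)
    · rw [mem_Ico] at ht
      unfold tp
      split_ifs <;> first | omega | simp
  rw [h1, sum_Ico_eq_sum_range]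
  unfold tp cnv
  by_cases h : j ≤ i
  · rw [if_pos h, show i + 1 - j = i - j + 1 by omega]
    refine sum_congr rfl fun v hv => ?_
    rw [mem_range] at hv
    rw [if_pos (by omega), if_pos (by omega), show i - (j + v) = i - j - v by omega,
      show j + v - j = v by omega]
  · rw [if_neg h, show i + 1 - j = 0 by omega, sum_range_zero]

theorem cnv_dl_left (a : ℕ → ℝ) : cnv dl a = a := by
  funext k
  unfold cnv dl
  rw [sum_eq_single k]
  · simp
  · intro v hv h
    rw [mem_range] at hv
    rw [if_neg (by omega), zero_mul]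
  · simp

theorem cnv_dl_right (b : ℕ → ℝ) : cnv b dl = b := by
  funext k
  unfold cnv dl
  rw [sum_eq_single 0]
  · simp
  · intro v _ h
    rw [if_neg h, mul_zero]
  · simp

theorem tp_dl {p : ℕ} (i : Fin p) (v : Fin p → ℝ) : ∑ j : Fin p, tp dl i j * v j = v i := by
  rw [sum_eq_single i]
  · simp [tp, dl]
  · intro j _ h
    have : (j : ℕ) ≠ i := fun e => h (Fin.ext e)
    unfold tp dl
    split_ifs <;> first | omega | simp
  · simp

theorem tp_inj {s : ℕ → ℝ} {p k : ℕ} (h0 : ∀ u < k, s u = 0) (h1 : s k ≠ 0)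
    (v : Fin (p - k) → ℝ) (hv : ∀ i < p, ∑ j : Fin (p - k), tp s i j * v j = 0) : v = 0 := by
  have key : ∀ n (hn : n < p - k), v ⟨n, hn⟩ = 0 := by
    intro n
    induction n using Nat.strong_induction_on with
    | _ n ih =>
      intro hn
      have h := hv (n + k) (by omega)
      rw [sum_eq_single ⟨n, hn⟩] at h
      · have e : tp s (n + k) n = s k := by simp [tp]
        rw [e] at h
        exact (mul_eq_zero.1 h).resolve_left h1
      · rintro ⟨j, hj⟩ _ hne
        have hne' : j ≠ n := fun e => hne (Fin.ext e)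
        by_cases hlt : j < n
        · rw [ih j hlt hj, mul_zero]
        · unfold tp
          split_ifs with hc
          · rw [h0 _ (by simp only at hc ⊢; omega), zero_mul]
          · simp
      · simp
  funext ⟨n, hn⟩
  exact key n hn

theorem mod_key {m l v : ℕ} (hl : l < m) (hv : v < 2 * m) (hk : v ≤ 2 * (m + 1) * l + 1)
    (h0 : v ≠ 2 * l) (h1 : v ≠ 2 * l + 1) : 2 ≤ (2 * (m + 1) * l + 1 - v) % (2 * m) := by
  by_cases h : v ≤ 2 * l + 1
  · have e : 2 * (m + 1) * l + 1 - v = (2 * l + 1 - v) + 2 * m * l := by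
      have : 2 * (m + 1) * l = 2 * m * l + 2 * l := by ring
      omega
    rw [e, Nat.add_mul_mod_self_left, Nat.mod_eq_of_lt (by omega)]
    omega
  · obtain ⟨l', rfl⟩ : ∃ l', l = l' + 1 := ⟨l - 1, by
      rcases l with _ | l
      · omega
      · rfl⟩
    have e : 2 * (m + 1) * (l' + 1) + 1 - v = (2 * m + 2 * l' + 3 - v) + 2 * m * l' := by
      have : 2 * (m + 1) * (l' + 1) = 2 * m * l' + 2 * m + 2 * l' + 2 := by ring
      omega
    rw [e, Nat.add_mul_mod_self_left, Nat.mod_eq_of_lt (by omega)]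
    omega

/-! ### The coefficient sequences -/

/-- zero (flag `false`) or an atom -/
abbrev At := Bool × Atom

def z0 : At := (false, one)
def o1 : At := (true, one)

def cv (x : At) : E := bif x.1 then conv x.2 else .inl 0
def rv (w : Nm → ℝ) (x : At) : ℝ := bif x.1 then ev w x.2 else 0

def a0 (c : Con) : At := (true, c.2.1)
def a1 (c : Con) : At := bif c.1 then z0 else (true, c.2.2.1)
def b1 (c : Con) : At := bif c.1 then (true, c.2.2.1) else o1
def zz (c : Con) : At := (true, c.2.2.2)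

def cI (k : ℕ) : At := if k = 0 then o1 else z0

def cA (cs : List Con) (k : ℕ) : At :=
  if k % 2 = 0 then (cs.map a0).getD (k / 2) z0 else (cs.map a1).getD (k / 2) z0

def cB (cs : List Con) (k : ℕ) : At :=
  if k % (2 * cs.length) = 0 then o1
  else if k % (2 * cs.length) = 1 then (cs.map b1).getD (k / (2 * cs.length)) z0 else z0

def cC (cs : List Con) (k : ℕ) : E :=
  if k % (2 * (cs.length + 1)) = 1 then
    (if k / (2 * (cs.length + 1)) < cs.length then
      cv ((cs.map zz).getD (k / (2 * (cs.length + 1))) z0) else .inr (tag true k))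
  else .inr (tag true k)

def coef (cs : List Con) (β γ : Bool) (k : ℕ) : E :=
  bif β then (bif γ then cC cs k else cv (cB cs k)) else (bif γ then cv (cA cs k) else cv (cI k))

abbrev Ix := Bool × ℕ

def ent (p : ℕ) (cs : List Con) (P Q : Ix) : E :=
  if Q.2 ≤ P.2 then coef cs P.1 Q.1 (min p P.2 - Q.2) else .inl 0

def nn (cs : List Con) : ℕ := 2 * (cs.length + 1) * cs.length + 1

def pp (K d : ℕ) (cs : List Con) : ℕ := K * nn cs ^ d

def rws (p : ℕ) : List Ix :=
  ((List.range p).map fun i => (false, i)) ++ (List.range p).map fun i => (true, i)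

def inst2 (K d : ℕ) (cs : List Con) : Inst :=
  ⟨(rws (pp K d cs)).length,
    fun i j => ent (pp K d cs) cs (rws (pp K d cs))[i] (rws (pp K d cs))[j], pp K d cs⟩

/-! ### Polynomial time -/

section pt

variable {α : Type} [Enc α]

theorem cv_pt : PT cv := PT.cond PT.fst' (PT.comp conv_pt PT.snd') (PT.const _)

theorem a0_pt : PT a0 := PT.pair (PT.const true) (PT.fst PT.snd')
theorem a1_pt : PT a1 :=
  PT.cond PT.fst' (PT.const _) (PT.pair (PT.const true) (PT.fst (PT.snd PT.snd')))
theorem b1_pt : PT b1 :=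
  PT.cond PT.fst' (PT.pair (PT.const true) (PT.fst (PT.snd PT.snd'))) (PT.const _)
theorem zz_pt : PT zz := PT.pair (PT.const true) (PT.snd (PT.snd PT.snd'))

theorem map_pt {cs : α → List Con} (h : PT cs) {g : Con → At} (hg : PT g) :
    PT fun a => (cs a).map g :=
  PT.map (F := fun _ c => g c) h (PT.comp hg PT.snd')

theorem cA_pt {cs : α → List Con} {k : α → ℕ} (h : PT cs) (hk : UN k) :
    PT fun a => cA (cs a) (k a) :=
  PT.iteEq (hk.mod (PT.const 2)).pt (PT.const 0)
    (ptGetD (map_pt h a0_pt) (hk.div (PT.const 2)).pt z0)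
    (ptGetD (map_pt h a1_pt) (hk.div (PT.const 2)).pt z0)

theorem cB_pt {cs : α → List Con} {k : α → ℕ} (h : PT cs) (hk : UN k) :
    PT fun a => cB (cs a) (k a) := by
  have hm : PT fun a => 2 * (cs a).length := PT.mul (PT.const 2) (PT.length h)
  exact PT.iteEq (hk.mod hm).pt (PT.const 0) (PT.const o1)
    (PT.iteEq (hk.mod hm).pt (PT.const 1) (ptGetD (map_pt h b1_pt) (hk.div hm).pt z0)
      (PT.const z0))

theorem cC_pt {cs : α → List Con} {k : α → ℕ} (h : PT cs) (hk : UN k) :
    PT fun a => cC (cs a) (k a) := by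
  have hm : PT fun a => 2 * ((cs a).length + 1) := PT.mul (PT.const 2) (PT.succ (PT.length h))
  have hf : PT fun a => (Sum.inr (tag true (k a)) : E) := inr_pt (PT.tag true hk.pt)
  exact PT.iteEq (hk.mod hm).pt (PT.const 1)
    (PT.ite (PT.lt (hk.div hm).pt (PT.length h))
      (PT.comp cv_pt (ptGetD (map_pt h zz_pt) (hk.div hm).pt z0)) hf) hf

theorem ent_pt {cs : α → List Con} {p : α → ℕ} {P Q : α → Ix} (h : PT cs) (hp : UN p)
    (hP : PT P) (hQ : PT Q) : PT fun a => ent (p a) (cs a) (P a) (Q a) := by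
  have hk : UN fun a => min (p a) (P a).2 - (Q a).2 := (hp.min (PT.snd hP)).sub (PT.snd hQ)
  exact PT.ite (PT.le (PT.snd hQ) (PT.snd hP))
    (PT.cond (PT.fst hP) (PT.cond (PT.fst hQ) (cC_pt h hk) (PT.comp cv_pt (cB_pt h hk)))
      (PT.cond (PT.fst hQ) (PT.comp cv_pt (cA_pt h hk))
        (PT.comp cv_pt (PT.iteEq hk.pt (PT.const 0) (PT.const o1) (PT.const z0)))))
    (PT.const _)

theorem pp_un (K d : ℕ) {cs : α → List Con} (h : PT cs) : UN fun a => pp K d (cs a) :=
  (UN.const K).mul (((((UN.const 2).mul ((UN.length h).add (UN.const 1))).mul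
    (UN.length h)).add (UN.const 1)).pow d)

theorem rws_pt {p : α → ℕ} (hp : UN p) : PT fun a => rws (p a) :=
  PT.append
    (PT.map (F := fun _ (i : ℕ) => ((false, i) : Ix)) hp.range (PT.pair (PT.const false) PT.snd'))
    (PT.map (F := fun _ (i : ℕ) => ((true, i) : Ix)) hp.range (PT.pair (PT.const true) PT.snd'))

end pt

def table2 (K d : ℕ) (cs : List Con) : ℕ × List (List (Bool × ℚ × ℕ)) :=
  (pp K d cs, (rws (pp K d cs)).map fun P => (rws (pp K d cs)).map fun Q =>
    entryCode (ent (pp K d cs) cs P Q))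

theorem table2_pt (K d : ℕ) : PT (table2 K d) := by
  have h0 : PT entryCode := PTR.id
  refine PT.pair (pp_un K d PT.id).pt (PT.map (F := fun (cs : List Con) (P : Ix) =>
    (rws (pp K d cs)).map fun Q => entryCode (ent (pp K d cs) cs P Q))
    (rws_pt (pp_un K d PT.id)) ?_)
  exact PT.map (F := fun (a : List Con × Ix) (Q : Ix) =>
    entryCode (ent (pp K d a.1) a.1 a.2 Q)) (rws_pt (pp_un K d PT.fst'))
    (PT.comp h0 (ent_pt (PT.fst PT.fst') (pp_un K d (PT.fst PT.fst')) (PT.snd PT.fst') PT.snd'))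

theorem encInst_inst2 (K d : ℕ) (cs : List Con) :
    encInst (inst2 K d cs) = enc (table2 K d cs) := by
  unfold encInst table2
  congr 2
  simp only [inst2]
  have h1 : ∀ P : Ix, (List.ofFn fun j : Fin (rws (pp K d cs)).length =>
      entryCode (ent (pp K d cs) cs P (rws (pp K d cs))[j])) =
      (rws (pp K d cs)).map fun Q => entryCode (ent (pp K d cs) cs P Q) :=
    fun P => List.ofFn_getElem_eq_map _ fun Q => entryCode (ent (pp K d cs) cs P Q)
  simp only [Fin.getElem_fin] at h1 ⊢
  simp only [h1]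
  exact List.ofFn_getElem_eq_map _ fun P =>
    (rws (pp K d cs)).map fun Q => entryCode (ent (pp K d cs) cs P Q)

theorem inst2_tm2 (K d : ℕ) : Nonempty (Turing.TM2ComputableInPolyTime encFm encInst
    fun φ => inst2 K d (allCons φ.code)) := by
  have h : PTR encFm fun φ : Fm => enc (table2 K d (allCons φ.code)) :=
    PTR.comp (F := Fm.code) (PT.comp (table2_pt K d) allCons_pt) PTR.id
  exact PTR.toTM2 (h.congr fun φ => (encInst_inst2 K d _).symm)

/-! ### Values -/

theorem evE_cv (a : ℕ → ℝ) (x : At) : evE a (cv x) = rv (fun v => a (tag false v)) x := by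
  rcases x with ⟨_ | _, y⟩
  · simp [cv, rv]
  · exact evE_conv a y

theorem rv_z0 (w : Nm → ℝ) : rv w z0 = 0 := rfl
theorem rv_o1 (w : Nm → ℝ) : rv w o1 = 1 := rfl

theorem rv_cI (w : Nm → ℝ) (k : ℕ) : rv w (cI k) = dl k := by
  unfold cI dl
  split_ifs <;> rfl

theorem getD_map_lt {g : Con → At} {cs : List Con} {l : ℕ} (hl : l < cs.length) :
    (cs.map g).getD l z0 = g cs[l] := by
  rw [List.getD_eq_getElem _ _ (by simpa using hl), List.getElem_map]

theorem cnv_key (w : Nm → ℝ) (cs : List Con) {l : ℕ} (hl : l < cs.length) :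
    cnv (fun k => rv w (cB cs k)) (fun k => rv w (cA cs k)) (2 * (cs.length + 1) * l + 1) =
      rv w (b1 cs[l]) * rv w (a0 cs[l]) + rv w (a1 cs[l]) := by
  have e : 2 * (cs.length + 1) * l = 2 * cs.length * l + 2 * l := by ring
  unfold cnv
  rw [sum_eq_add_of_mem (2 * l) (2 * l + 1) (mem_range.2 (by omega)) (mem_range.2 (by omega))
    (by omega)]
  · have e0 : 2 * (cs.length + 1) * l + 1 - 2 * l = 1 + 2 * cs.length * l := by omega
    have e1 : 2 * (cs.length + 1) * l + 1 - (2 * l + 1) = 0 + 2 * cs.length * l := by omega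
    have m1 : (1 + 2 * cs.length * l) % (2 * cs.length) = 1 := by
      rw [Nat.add_mul_mod_self_left, Nat.mod_eq_of_lt (by omega)]
    have d1 : (1 + 2 * cs.length * l) / (2 * cs.length) = l := by
      rw [Nat.add_mul_div_left _ _ (by omega), Nat.div_eq_of_lt (by omega), zero_add]
    have m0 : (0 + 2 * cs.length * l) % (2 * cs.length) = 0 := by
      rw [Nat.add_mul_mod_self_left, Nat.zero_mod]
    rw [e0, e1]
    simp only [cA, cB]
    rw [if_neg (by omega), if_pos m1, d1, if_pos m0, if_pos (by omega), if_neg (by omega),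
      show 2 * l / 2 = l by omega, show (2 * l + 1) / 2 = l by omega, getD_map_lt hl,
      getD_map_lt hl, getD_map_lt hl, rv_o1, one_mul]
  · intro v hv hne
    rw [mem_range] at hv
    by_cases h : v < 2 * cs.length
    · have := mod_key hl h (by omega) hne.1 hne.2
      simp only [cB]
      rw [if_neg (by omega), if_neg (by omega), rv_z0, zero_mul]
    · have h1 : ∀ g : Con → At, (cs.map g).getD (v / 2) z0 = z0 := fun g =>
        List.getD_eq_default _ _ (by rw [List.length_map]; omega)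
      simp only [cA, h1, ite_self, rv_z0, mul_zero]

theorem sat_iff (w : Nm → ℝ) (c : Con) :
    Sat w c ↔ rv w (zz c) = rv w (b1 c) * rv w (a0 c) + rv w (a1 c) := by
  obtain ⟨_ | _, x, y, z⟩ := c
  · simp only [sat_false, zz, b1, a0, a1, rv, o1, cond_true, cond_false, ev_one, one_mul]
    exact eq_comm
  · simp only [sat_true, zz, b1, a0, a1, rv, z0, cond_true, cond_false, add_zero]
    rw [mul_comm]
    exact eq_comm

theorem cC_key (cs : List Con) {l : ℕ} (hl : l < cs.length) :
    cC cs (2 * (cs.length + 1) * l + 1) = cv (zz cs[l]) := by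
  have m1 : (2 * (cs.length + 1) * l + 1) % (2 * (cs.length + 1)) = 1 := by
    rw [add_comm _ 1, Nat.add_mul_mod_self_left, Nat.mod_eq_of_lt (by omega)]
  have d1 : (2 * (cs.length + 1) * l + 1) / (2 * (cs.length + 1)) = l := by
    rw [add_comm _ 1, Nat.add_mul_div_left _ _ (by omega), Nat.div_eq_of_lt (by omega), zero_add]
  unfold cC
  rw [if_pos m1, d1, if_pos hl, getD_map_lt hl]

theorem cC_cases (cs : List Con) (k : ℕ) : cC cs k = .inr (tag true k) ∨
    ∃ l < cs.length, k = 2 * (cs.length + 1) * l + 1 := by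
  unfold cC
  split_ifs with h1 h2
  · refine Or.inr ⟨_, h2, ?_⟩
    have := Nat.div_add_mod k (2 * (cs.length + 1))
    rw [h1] at this
    exact this.symm
  · exact Or.inl rfl
  · exact Or.inl rfl

theorem mem_rws {p : ℕ} {P : Ix} : P ∈ rws p ↔ P.2 < p := by
  obtain ⟨_ | _, i⟩ := P <;> simp [rws]

theorem length_rws (p : ℕ) : (rws p).length = 2 * p := by
  simp only [rws, List.length_append, List.length_map, List.length_range]
  omega

theorem evE_ent (a : ℕ → ℝ) {p : ℕ} (cs : List Con) {P : Ix} (hP : P.2 < p) (Q : Ix) :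
    evE a (ent p cs P Q) = tp (fun k => evE a (coef cs P.1 Q.1 k)) P.2 Q.2 := by
  unfold ent tp
  split_ifs
  · rw [min_eq_right hP.le]
  · simp

theorem cv_const {x : At} {q : ℚ} (h : cv x = .inl q) : q = 0 ∨ q = 1 := by
  rcases x with ⟨_ | _, _ | _, y⟩ <;> simp [cv, conv] at h <;> simp [← h]

theorem ent_const {p : ℕ} {cs : List Con} {P Q : Ix} {q : ℚ} (h : ent p cs P Q = .inl q) :
    q = 0 ∨ q = 1 := by
  unfold ent at h
  split_ifs at h
  · unfold coef at h
    rcases P with ⟨_ | _, i⟩ <;> rcases Q with ⟨_ | _, j⟩ <;>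
      simp only [cond_true, cond_false] at h
    · exact cv_const h
    · exact cv_const h
    · exact cv_const h
    · unfold cC at h
      split_ifs at h
      · exact cv_const h
  · exact Or.inl (Sum.inl_injective h).symm

abbrev mat2 (K d : ℕ) (cs : List Con) (a : ℕ → ℝ) :
    Matrix (Fin (inst2 K d cs).size) (Fin (inst2 K d cs).size) ℝ :=
  Matrix.of fun i j => evE a ((inst2 K d cs).entry i j)

theorem rank_yes2 (K d : ℕ) (cs : List Con) (w : Nm → ℝ) (hw : ∀ c ∈ cs, Sat w c) :
    ∃ a : ℕ → ℝ, (mat2 K d cs a).rank ≤ pp K d cs := by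
  let A : ℕ → ℝ := fun k => rv w (cA cs k)
  let B : ℕ → ℝ := fun k => rv w (cB cs k)
  let a : ℕ → ℝ := Function.extend (tag false) w (Function.extend (tag true) (cnv B A) 0)
  have ha0 : (fun v : Nm => a (tag false v)) = w := funext fun v =>
    (tag_injective false).extend_apply _ _ v
  have ha1 : ∀ k : ℕ, a (tag true k) = cnv B A k := fun k => by
    simp only [a]
    rw [Function.extend_apply' _ _ _ (by rintro ⟨v, hv⟩; exact tag_ne v k hv),
      (tag_injective true).extend_apply]
  have hc : ∀ β γ : Bool, (fun k => evE a (coef cs β γ k)) =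
      cnv (bif β then B else dl) (bif γ then A else dl) := by
    intro β γ
    funext k
    rcases β with _ | _ <;> rcases γ with _ | _ <;>
      simp only [coef, cond_true, cond_false, cnv_dl_left, cnv_dl_right, evE_cv, ha0, rv_cI]
    · rfl
    · rfl
    · rcases cC_cases cs k with h | ⟨l, hl, rfl⟩
      · rw [h]; exact ha1 k
      · rw [cC_key cs hl, evE_cv, ha0, cnv_key w cs hl]
        exact (sat_iff w _).1 (hw _ (List.getElem_mem hl))
  refine ⟨a, ?_⟩
  have e : mat2 K d cs a =
      (Matrix.of fun (i : Fin (rws (pp K d cs)).length) (t : Fin (pp K d cs)) =>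
        tp (bif (rws (pp K d cs))[i].1 then B else dl) (rws (pp K d cs))[i].2 t) *
      (Matrix.of fun (t : Fin (pp K d cs)) (j : Fin (rws (pp K d cs)).length) =>
        tp (bif (rws (pp K d cs))[j].1 then A else dl) t (rws (pp K d cs))[j].2) := by
    ext i j
    have hi : (rws (pp K d cs))[i].2 < pp K d cs := mem_rws.1 (List.getElem_mem _)
    refine (evE_ent a cs hi (rws (pp K d cs))[j]).trans ?_
    rw [hc]
    exact (tp_mul _ _ hi _).symm
  rw [e]
  refine (Matrix.rank_mul_le_left _ _).trans ((Matrix.rank_le_card_width _).trans ?_)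
  simp

theorem rank_no2 (K d : ℕ) (cs : List Con) (a : ℕ → ℝ) (c : Con) (hc : c ∈ cs)
    (hn : ¬ Sat (fun v => a (tag false v)) c) :
    2 * pp K d cs ≤ (mat2 K d cs a).rank + nn cs := by
  classical
  set w : Nm → ℝ := fun v => a (tag false v) with hw
  set p := pp K d cs with hp
  let A : ℕ → ℝ := fun k => rv w (cA cs k)
  let B : ℕ → ℝ := fun k => rv w (cB cs k)
  let C : ℕ → ℝ := fun k => evE a (cC cs k)
  obtain ⟨l, hl, rfl⟩ := List.getElem_of_mem hc
  have hl' : C (2 * (cs.length + 1) * l + 1) - cnv B A (2 * (cs.length + 1) * l + 1) ≠ 0 := by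
    intro h
    refine hn ((sat_iff w _).2 ?_)
    rw [← cnv_key w cs hl, ← evE_cv, ← cC_key cs hl]
    exact sub_eq_zero.1 h
  have hex : ∃ k, C k - cnv B A k ≠ 0 := ⟨_, hl'⟩
  have hk : Nat.find hex ≤ nn cs := (Nat.find_min' hex hl').trans (by
    unfold nn
    have := Nat.mul_le_mul_left (2 * (cs.length + 1)) hl.le
    omega)
  set k := Nat.find hex with hkdef
  have h1 : ∀ P : Bool × Fin p, ∃ n : Fin (rws p).length, (rws p)[n] = (P.1, (P.2 : ℕ)) :=
    fun P => List.get_of_mem (mem_rws.2 P.2.2)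
  choose f hf using h1
  have hm : ∀ P Q, mat2 K d cs a (f P) (f Q) =
      tp (fun k => evE a (coef cs P.1 Q.1 k)) P.2 Q.2 := by
    intro P Q
    refine Eq.trans ?_ (evE_ent a cs (P := (P.1, (P.2 : ℕ))) P.2.2 (Q.1, (Q.2 : ℕ)))
    rw [← hf P, ← hf Q]
    rfl
  have h2 := rank_ge (mat2 K d cs a) f (Sum.elim (fun j : Fin p => f (false, j))
    (fun j : Fin (p - k) => f (true, Fin.castLE (Nat.sub_le _ _) j))) ?_
  · simp only [Fintype.card_sum, Fintype.card_fin] at h2
    omega
  intro v hv
  simp only [Fintype.sum_sum_type, Sum.elim_inl, Sum.elim_inr, hm, Fin.val_castLE] at hv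
  have r0 : ∀ i : Fin p, v (.inl i) = -∑ j : Fin (p - k), tp A i j * v (.inr j) := by
    intro i
    have := hv (false, i)
    simp only [coef, cond_true, cond_false, evE_cv, rv_cI] at this
    rw [tp_dl i fun j => v (.inl j)] at this
    exact eq_neg_of_add_eq_zero_left this
  have r1 : (fun j => v (.inr j)) = 0 := by
    refine tp_inj (s := fun k => C k - cnv B A k)
      (fun u hu => not_not.1 (Nat.find_min hex hu)) (Nat.find_spec hex) _ fun i hi => ?_
    have h3 : ∑ t : Fin p, tp B i t * v (.inl t) + ∑ j : Fin (p - k), tp C i j * v (.inr j) = 0 := by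
      have := hv (true, ⟨i, hi⟩)
      simpa only [coef, cond_true, cond_false, evE_cv] using this
    have h4 : ∑ t : Fin p, tp B i t * v (.inl t) =
        -∑ j : Fin (p - k), tp (cnv B A) i j * v (.inr j) := by
      simp only [r0, mul_neg, sum_neg_distrib, mul_sum, neg_inj]
      rw [sum_comm]
      refine sum_congr rfl fun j _ => ?_
      rw [← tp_mul B A hi, sum_mul]
      exact sum_congr rfl fun t _ => (mul_assoc _ _ _).symm
    rw [h4, neg_add_eq_sub, ← sum_sub_distrib] at h3
    refine Eq.trans (sum_congr rfl fun j _ => ?_) h3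
    unfold tp
    split_ifs <;> ring
  funext j
  rcases j with j | j
  · rw [r0 j]
    simp [show ∀ j, v (.inr j) = 0 from congrFun r1]
  · exact congrFun r1 j

theorem main2 (K d : ℕ) :
    ∃ f : Fm → Inst, Nonempty (Turing.TM2ComputableInPolyTime encFm encInst f) ∧
      ∀ φ : Fm, ∃ n : ℕ, 1 ≤ n ∧ (f φ).r = K * n ^ d ∧ (f φ).size = 2 * (f φ).r ∧
        (∀ i j q, (f φ).entry i j = .inl q → q = 0 ∨ q = 1) ∧
        ((∃ y, φ.Holds y) → (f φ).mr ≤ (f φ).r) ∧
        ((¬ ∃ y, φ.Holds y) → 2 * (f φ).r ≤ (f φ).mr + n) := by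
  refine ⟨fun φ => inst2 K d (allCons φ.code), inst2_tm2 K d, fun φ =>
    ⟨nn (allCons φ.code), Nat.le_add_left _ _, rfl, length_rws _, fun i j q h => ent_const h,
      fun h => ?_, fun h => ?_⟩⟩
  · obtain ⟨w, hw⟩ := (holds_iff φ).1 h
    obtain ⟨a, ha⟩ := rank_yes2 K d _ w hw
    exact (Nat.sInf_le (s := {r : ℕ | ∃ a : ℕ → ℝ, (mat2 K d (allCons φ.code) a).rank = r})
      ⟨a, rfl⟩).trans ha
  · obtain ⟨a, ha⟩ := Nat.sInf_mem
      (s := {r : ℕ | ∃ a : ℕ → ℝ, (mat2 K d (allCons φ.code) a).rank = r}) ⟨_, 0, rfl⟩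
    rw [holds_iff] at h
    push Not at h
    obtain ⟨c, hc, hn⟩ := h fun v => a (tag false v)
    exact (rank_no2 K d _ a c hc hn).trans (Nat.add_le_add_right ha.le _)

end T91

end Pool.Agent.Lib.MP_3930bf_lc
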